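import Pool.Agent.Lib.MP_305fdd_al.Su.Min.E

/-!
# MP_305fdd_al, surface groups, block N: the adic completion of a Noetherian ring
-/

set_option autoImplicit false

namespace Pool.Agent.SuMin

open Pool.Agent.SuTR (Comp Jd)

section

variable {B : Type} [CommRing B] (J : Ideal B)

theorem eval_zero_iff (n : ℕ) (r : AdicCompletion J B) :
    AdicCompletion.evalₐ J n r = 0 ↔ AdicCompletion.eval J B n r = 0 := by
  have h1 : (J ^ n • ⊤ : Ideal B) ≤ J ^ n := Ideal.mul_le_left
  have h2 : J ^ n ≤ (J ^ n • ⊤ : Ideal B) := by rw [smul_eq_mul, Ideal.mul_top]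
  constructor
  · intro h
    rw [← AdicCompletion.factor_evalₐ_eq_eval J r h2, h, map_zero]
  · intro h
    rw [← AdicCompletion.factor_eval_eq_evalₐ J r h1, h, map_zero]

theorem mem_pow (hJ : J.FG) (n : ℕ) (r : AdicCompletion J B) :
    r ∈ (J.map (algebraMap B (AdicCompletion J B))) ^ n ↔ AdicCompletion.evalₐ J n r = 0 := by
  rw [eval_zero_iff, ← LinearMap.mem_ker, ← AdicCompletion.pow_smul_top_eq_ker_eval hJ,
    Ideal.smul_top_eq_map, ← Ideal.map_pow]
  rfl

/-- a surjective ring homomorphism induces a surjective homomorphism of the completions -/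
theorem exists_surj {P : Type} [CommRing P] (𝔫 : Ideal P) (f : P →+* B)
    (hf : Function.Surjective f) (hJ : 𝔫.map f = J) :
    ∃ g : AdicCompletion 𝔫 P →+* AdicCompletion J B, Function.Surjective g := by
  have hle : ∀ n, 𝔫 ^ n ≤ (J ^ n).comap f := by
    intro n
    rw [← Ideal.map_le_iff_le_comap, Ideal.map_pow, hJ]
  let F : (n : ℕ) → AdicCompletion 𝔫 P →+* B ⧸ J ^ n := fun n =>
    (Ideal.quotientMap (J ^ n) f (hle n)).comp (AdicCompletion.evalₐ 𝔫 n : _ →+* _)
  have hF : ∀ (n : ℕ) (x : AdicCompletion.AdicCauchySequence 𝔫 P),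
      F n (AdicCompletion.mk 𝔫 P x) = Ideal.Quotient.mk (J ^ n) (f (x n)) := by
    intro n x
    change Ideal.quotientMap (J ^ n) f (hle n) (AdicCompletion.evalₐ 𝔫 n (AdicCompletion.mk 𝔫 P x)) = _
    rw [AdicCompletion.evalₐ_mk, Ideal.quotientMap_mk]
  have hF' : ∀ {m n : ℕ} (hle : m ≤ n), (Ideal.Quotient.factorPow J hle).comp (F n) = F m := by
    intro m n hmn
    refine RingHom.ext fun x => ?_
    obtain ⟨x, rfl⟩ := AdicCompletion.mk_surjective 𝔫 P x
    rw [RingHom.comp_apply, hF, hF]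
    change Ideal.Quotient.mk (J ^ m) (f (x n)) = Ideal.Quotient.mk (J ^ m) (f (x m))
    rw [Ideal.Quotient.mk_eq_mk_iff_sub_mem, ← map_sub]
    have h1 := AdicCompletion.AdicCauchySequence.mk_eq_mk hmn x
    rw [Submodule.Quotient.eq, smul_eq_mul, Ideal.mul_top] at h1
    exact hle m h1
  refine ⟨AdicCompletion.liftRingHom J F hF', fun y => ?_⟩
  obtain ⟨y, rfl⟩ := AdicCompletion.mk_surjective J B y
  have hy : ∀ n, y (n + 1) - y n ∈ J ^ n := by
    intro n
    have h1 := AdicCompletion.AdicCauchySequence.mk_eq_mk (Nat.le_succ n) y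
    rwa [Submodule.Quotient.eq, smul_eq_mul, Ideal.mul_top] at h1
  have hq : ∀ n, ∃ q ∈ 𝔫 ^ n, f q = y (n + 1) - y n := by
    intro n
    have h1 : y (n + 1) - y n ∈ (𝔫 ^ n).map f := by
      rw [Ideal.map_pow, hJ]
      exact hy n
    exact (Ideal.mem_map_iff_of_surjective f hf).1 h1
  choose q hq hqf using hq
  obtain ⟨c, hc⟩ := hf (y 0)
  let s : ℕ → P := fun n => c + ∑ i ∈ Finset.range n, q i
  have hs : ∀ n, f (s n) = y n := by
    intro n
    induction n with
    | zero => simp [s, hc]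
    | succ n ih =>
      have h1 : s (n + 1) = s n + q n := by
        simp only [s, Finset.sum_range_succ]
        ring
      rw [h1, map_add, ih, hqf]
      ring
  have hs' : ∀ n, s n ≡ s (n + 1) [SMOD (𝔫 ^ n • ⊤ : Submodule P P)] := by
    intro n
    rw [SModEq.sub_mem, smul_eq_mul, Ideal.mul_top]
    have h1 : s n - s (n + 1) = -q n := by
      simp only [s, Finset.sum_range_succ]
      ring
    rw [h1]
    exact Submodule.neg_mem _ (hq n)
  refine ⟨AdicCompletion.mk 𝔫 P (AdicCompletion.AdicCauchySequence.mk 𝔫 P s hs'), ?_⟩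
  refine AdicCompletion.ext_evalₐ fun n => ?_
  rw [AdicCompletion.evalₐ_liftRingHom, hF, AdicCompletion.evalₐ_mk]
  change Ideal.Quotient.mk (J ^ n) (f (s n)) = _
  rw [hs]

/-- the adic completion of a Noetherian ring is Noetherian -/
theorem noeth_adic [IsNoetherianRing B] : IsNoetherianRing (AdicCompletion J B) := by
  obtain ⟨S, hS⟩ : J.FG := IsNoetherian.noetherian J
  let f : MvPolynomial S B →+* B := (MvPolynomial.aeval (fun s : S => (s : B))).toRingHom
  have hfX : ∀ s : S, f (MvPolynomial.X s) = s := fun s => MvPolynomial.aeval_X _ s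
  have hfC : ∀ b : B, f (MvPolynomial.C b) = b := fun b => by
    change MvPolynomial.aeval (fun s : S => (s : B)) (MvPolynomial.C b) = b
    rw [MvPolynomial.aeval_C]
    rfl
  have hf : Function.Surjective f := fun b => ⟨MvPolynomial.C b, hfC b⟩
  have hm : (MvPolynomial.idealOfVars S B).map f = J := by
    rw [MvPolynomial.idealOfVars, Ideal.map_span, ← hS]
    congr 1
    ext x
    constructor
    · rintro ⟨_, ⟨s, rfl⟩, rfl⟩
      rw [hfX]
      exact s.2
    · intro hx
      exact ⟨_, ⟨⟨x, hx⟩, rfl⟩, hfX _⟩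
  obtain ⟨g, hg⟩ := exists_surj J (MvPolynomial.idealOfVars S B) f hf hm
  have h1 : IsNoetherianRing (AdicCompletion (MvPolynomial.idealOfVars S B) (MvPolynomial S B)) :=
    isNoetherianRing_of_ringEquiv (MvPowerSeries S B)
      (MvPowerSeries.toAdicCompletionAlgEquiv S B).toRingEquiv
  exact isNoetherianRing_of_surjective _ _ g hg

/-- block N: `B → AdicCompletion J B` is the completion in the sense of `Comp` -/
theorem comp_adic [IsNoetherianRing B] : Comp (algebraMap B (AdicCompletion J B)) J := by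
  have hJ : J.FG := IsNoetherian.noetherian J
  have hev : ∀ n b, AdicCompletion.evalₐ J n (algebraMap B (AdicCompletion J B) b) =
      Ideal.Quotient.mk (J ^ n) b := fun n b => AdicCompletion.evalₐ_of J n b
  refine ⟨noeth_adic J, fun n r => ?_, fun n b hb => ?_, fun r hr => ?_, fun s hs => ?_,
    fun n b r hbr => ?_⟩
  · obtain ⟨b, hb⟩ := Ideal.Quotient.mk_surjective (AdicCompletion.evalₐ J n r)
    refine ⟨b, ?_⟩
    rw [mem_pow J hJ, map_sub, hev, hb, sub_self]
  · rw [mem_pow J hJ, hev, Ideal.Quotient.eq_zero_iff_mem] at hb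
    exact hb
  · refine AdicCompletion.ext_evalₐ fun n => ?_
    rw [map_zero]
    exact (mem_pow J hJ n r).1 (hr n)
  · have hs' : ∀ n, s n ≡ s (n + 1) [SMOD (J ^ n • ⊤ : Submodule B B)] := by
      intro n
      rw [SModEq.sub_mem, smul_eq_mul, Ideal.mul_top, ← neg_mem_iff, neg_sub]
      exact hs n
    refine ⟨AdicCompletion.mk J B (AdicCompletion.AdicCauchySequence.mk J B s hs'), fun n => ?_⟩
    rw [mem_pow J hJ, map_sub, hev, AdicCompletion.evalₐ_mk]
    exact sub_self _
  · have h1 : ∑ i, b i • r i = 0 := by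
      rw [← hbr]
      refine Finset.sum_congr rfl fun i _ => ?_
      rw [Algebra.smul_def, mul_comm]
    obtain ⟨m, a, y, h2, h3⟩ := Module.Flat.isTrivialRelation_of_sum_smul_eq_zero h1
    refine ⟨m, y, fun j i => a i j, fun i => ?_, fun j => ?_⟩
    · rw [h2 i]
      refine Finset.sum_congr rfl fun j _ => ?_
      rw [Algebra.smul_def, mul_comm]
    · rw [← h3 j]
      refine Finset.sum_congr rfl fun i _ => ?_
      rw [mul_comm]

/-- composition with an isomorphism -/
theorem Comp.equiv {B R R' : Type} [CommRing B] [CommRing R] [CommRing R'] {φ : B →+* R}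
    {J : Ideal B} (h : Comp φ J) (θ : R ≃+* R') : Comp ((θ : R →+* R').comp φ) J := by
  have hm : ∀ (n : ℕ) (r : R), θ r ∈ (J.map ((θ : R →+* R').comp φ)) ^ n ↔ r ∈ (J.map φ) ^ n := by
    intro n r
    rw [← Ideal.map_map, ← Ideal.map_pow, Ideal.map_coe, ← Ideal.symm_apply_mem_of_equiv_iff]
    rw [RingEquiv.symm_apply_apply]
  have hm' : ∀ (n : ℕ) (r : R'), r ∈ (J.map ((θ : R →+* R').comp φ)) ^ n ↔
      θ.symm r ∈ (J.map φ) ^ n := by
    intro n r
    rw [← hm, RingEquiv.apply_symm_apply]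
  refine ⟨?_, fun n r => ?_, fun n b hb => ?_, fun r hr => ?_, fun s hs => ?_, fun n b r hbr => ?_⟩
  · have := h.noeth
    exact isNoetherianRing_of_ringEquiv R θ
  · obtain ⟨b, hb⟩ := h.dense n (θ.symm r)
    refine ⟨b, ?_⟩
    rw [hm', map_sub]
    change θ.symm r - θ.symm (θ (φ b)) ∈ _
    rwa [RingEquiv.symm_apply_apply]
  · exact h.top n b ((hm n _).1 hb)
  · have h1 := h.sep (θ.symm r) fun n => (hm' n r).1 (hr n)
    rw [← RingEquiv.apply_symm_apply θ r, h1, map_zero]
  · obtain ⟨r, hr⟩ := h.cpl s hs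
    refine ⟨θ r, fun n => ?_⟩
    change θ r - θ (φ (s n)) ∈ _
    rw [← map_sub, hm]
    exact hr n
  · have h1 : ∑ i, θ.symm (r i) * φ (b i) = 0 := by
      apply θ.injective
      rw [map_sum, map_zero, ← hbr]
      refine Finset.sum_congr rfl fun i _ => ?_
      rw [map_mul, RingEquiv.apply_symm_apply]
      rfl
    obtain ⟨m, s, c, h2, h3⟩ := h.flat n b (fun i => θ.symm (r i)) h1
    refine ⟨m, fun j => θ (s j), c, fun i => ?_, h3⟩
    rw [← RingEquiv.apply_symm_apply θ (r i), h2 i, map_sum]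
    refine Finset.sum_congr rfl fun j _ => ?_
    rw [map_mul]
    rfl

/-- compatible isomorphisms `B / J ^ n = B' / J' ^ n` give a common completion -/
theorem comp_pair {B B' : Type} [CommRing B] [CommRing B'] [IsNoetherianRing B]
    [IsNoetherianRing B'] (J : Ideal B) (J' : Ideal B')
    (e : ∀ n, B ⧸ J ^ n ≃+* B' ⧸ J' ^ n)
    (he : ∀ (m n : ℕ) (hmn : m ≤ n) (x : B ⧸ J ^ n),
      Ideal.Quotient.factorPow J' hmn (e n x) = e m (Ideal.Quotient.factorPow J hmn x)) :
    ∃ (R : Type) (_ : CommRing R) (φ : B →+* R) (φ' : B' →+* R),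
      Comp φ J ∧ Comp φ' J' ∧ J.map φ = J'.map φ' ∧
      ∀ n b b', φ b - φ' b' ∈ (J.map φ) ^ n ↔
        e n (Ideal.Quotient.mk (J ^ n) b) = Ideal.Quotient.mk (J' ^ n) b' := by
  have key : ∀ {A A' : Type} [CommRing A] [CommRing A'] (I : Ideal A) (I' : Ideal A')
      (e : ∀ n, A ⧸ I ^ n ≃+* A' ⧸ I' ^ n)
      (he : ∀ (m n : ℕ) (hmn : m ≤ n) (x : A ⧸ I ^ n),
        Ideal.Quotient.factorPow I' hmn (e n x) = e m (Ideal.Quotient.factorPow I hmn x)),
      ∃ f : AdicCompletion I A →+* AdicCompletion I' A', ∀ n x,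
        AdicCompletion.evalₐ I' n (f x) = e n (AdicCompletion.evalₐ I n x) := by
    intro A A' _ _ I I' e he
    have hcompat : ∀ (m n : ℕ) (hmn : m ≤ n) (x : AdicCompletion I A),
        Ideal.Quotient.factorPow I hmn (AdicCompletion.evalₐ I n x) =
          AdicCompletion.evalₐ I m x := by
      intro m n hmn x
      obtain ⟨x, rfl⟩ := AdicCompletion.mk_surjective I A x
      rw [AdicCompletion.evalₐ_mk, AdicCompletion.evalₐ_mk]
      change Ideal.Quotient.mk (I ^ m) (x n) = Ideal.Quotient.mk (I ^ m) (x m)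
      rw [Ideal.Quotient.mk_eq_mk_iff_sub_mem]
      have h1 := AdicCompletion.AdicCauchySequence.mk_eq_mk hmn x
      rwa [Submodule.Quotient.eq, smul_eq_mul, Ideal.mul_top] at h1
    let F : (n : ℕ) → AdicCompletion I A →+* A' ⧸ I' ^ n := fun n =>
      ((e n : A ⧸ I ^ n →+* A' ⧸ I' ^ n)).comp (AdicCompletion.evalₐ I n : _ →+* _)
    have hF : ∀ {m n : ℕ} (hle : m ≤ n), (Ideal.Quotient.factorPow I' hle).comp (F n) = F m := by
      intro m n hmn
      refine RingHom.ext fun x => ?_
      change Ideal.Quotient.factorPow I' hmn (e n (AdicCompletion.evalₐ I n x)) =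
        e m (AdicCompletion.evalₐ I m x)
      rw [he, hcompat]
    exact ⟨AdicCompletion.liftRingHom I' F hF, fun n x =>
      AdicCompletion.evalₐ_liftRingHom I' F hF n x⟩
  obtain ⟨f, hf⟩ := key J J' e he
  obtain ⟨g, hg⟩ := key J' J (fun n => (e n).symm) (fun m n hmn x => by
    apply (e m).injective
    rw [← he, RingEquiv.apply_symm_apply, RingEquiv.apply_symm_apply])
  have hfg : ∀ x, f (g x) = x := fun x => AdicCompletion.ext_evalₐ fun n => by
    rw [hf, hg, RingEquiv.apply_symm_apply]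
  have hgf : ∀ x, g (f x) = x := fun x => AdicCompletion.ext_evalₐ fun n => by
    rw [hg, hf, RingEquiv.symm_apply_apply]
  let θ : AdicCompletion J B ≃+* AdicCompletion J' B' :=
    { toFun := f, invFun := g, left_inv := hgf, right_inv := hfg
      map_mul' := map_mul f, map_add' := map_add f }
  have hJ : J.FG := IsNoetherian.noetherian J
  have hJ' : J'.FG := IsNoetherian.noetherian J'
  set φ : B →+* AdicCompletion J' B' :=
    (θ : AdicCompletion J B →+* AdicCompletion J' B').comp
      (algebraMap B (AdicCompletion J B)) with hφ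
  have h1 : Comp φ J := Comp.equiv (comp_adic J) θ
  have h2 := comp_adic J'
  have hp : ∀ (n : ℕ) (r : AdicCompletion J' B'), r ∈ (J.map φ) ^ n ↔
      r ∈ (J'.map (algebraMap B' (AdicCompletion J' B'))) ^ n := by
    intro n r
    have e1 : r = θ (θ.symm r) := (RingEquiv.apply_symm_apply θ r).symm
    have e2 : r ∈ (J.map φ) ^ n ↔ θ.symm r ∈ (J.map (algebraMap B (AdicCompletion J B))) ^ n := by
      rw [hφ, ← Ideal.map_map, ← Ideal.map_pow, Ideal.map_coe, ← Ideal.symm_apply_mem_of_equiv_iff]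
    rw [e2, mem_pow J hJ, mem_pow J' hJ']
    have e3 := hf n (θ.symm r)
    have e4 : f (θ.symm r) = r := RingEquiv.apply_symm_apply θ r
    rw [e4] at e3
    rw [e3]
    exact (map_eq_zero_iff (e n) (e n).injective).symm
  have hmap : J.map φ = J'.map (algebraMap B' (AdicCompletion J' B')) := by
    ext r
    have := hp 1 r
    rwa [pow_one, pow_one] at this
  refine ⟨AdicCompletion J' B', inferInstance, φ, algebraMap B' (AdicCompletion J' B'), h1, h2,
    hmap, fun n b b' => ?_⟩
  rw [hp, mem_pow J' hJ', map_sub, sub_eq_zero]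
  have e1 : AdicCompletion.evalₐ J' n (φ b) = e n (Ideal.Quotient.mk (J ^ n) b) := by
    change AdicCompletion.evalₐ J' n (f (algebraMap B (AdicCompletion J B) b)) = _
    rw [hf]
    congr 1
  have e2 : AdicCompletion.evalₐ J' n (algebraMap B' (AdicCompletion J' B') b') =
      Ideal.Quotient.mk (J' ^ n) b' := AdicCompletion.evalₐ_of J' n b'
  rw [e1, e2]

end

end Pool.Agent.SuMin
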