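import Pool.Agent.Lib.MP_305fdd_al.Su.Min.G
import Pool.Agent.Lib.MP_305fdd_al.Fr.N.J_pbex
import Pool.Agent.Lib.MP_305fdd_al.Fr.N.Hlp

/-!
# MP_305fdd_al, surface groups, block MIN, part H: log type for `p = 2`

Main results: `exists_MB` (the fraction field of a finitely generated algebra has a monomial
`p`-basis), `logTy_two` (`p = 2`: every nonzero `p⁻¹`-linear map is of log type), `nil_om'` (transfer of
nilpotence for nonzero `p⁻¹`-linear maps).
-/

set_option autoImplicit false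

namespace Pool.Agent.SuMin

open Pool.Agent.SuTR (Comp Jd)
open Pool.Agent.FrN Pool.Agent.FrNE Pool.Agent.FrNA Pool.Agent.F2Ch Pool.Agent.F2RF

/-- the fraction field of a finitely generated algebra has a monomial `p`-basis -/
theorem exists_MB {p : ℕ} [Fact p.Prime] {K : Type} [Field K] [Algebra (ZMod p) K]
    {B : Subalgebra (ZMod p) K} (hB : B.FG) (hF : Frc B) :
    ∃ (d : ℕ) (t : Fin d → K) (π : (Fin d → Fin p) → K → K), MB p t π := by
  have hc : CharP K p := charP_of_injective_algebraMap (algebraMap (ZMod p) K).injective p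
  obtain ⟨m, g, hg⟩ := pbex_frac p K B hB hF
  obtain ⟨d, b, ρ, _, hb⟩ := t_B4 p (ZMod p) K m g hg
  obtain ⟨y, ρ', hy, hy'⟩ := t_C5 p K d b ρ hb
  exact ⟨d, y, ρ', hy, hy'⟩

/-- a `p⁻¹`-linear map in terms of a monomial `p`-basis -/
theorem pinv_eq {p : ℕ} [Fact p.Prime] {K : Type} [Field K] [Algebra (ZMod p) K] {d : ℕ}
    {t : Fin d → K} {π : (Fin d → Fin p) → K → K} (hM : MB p t π) {Φ : K → K} (h : IsPinv p Φ)
    (f : K) : Φ f =
      π j0 ((∑ a, Φ (monY (p := p) t a) ^ p * (monY (p := p) t a)⁻¹) * f) := by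
  have hc : CharP K p := charP_of_injective_algebraMap (algebraMap (ZMod p) K).injective p
  have h7 := (w7 p K d t π hM).1
  have hπ : IsPinv p (π j0) := mb_pinv hM j0
  have sum1 : ∀ {Ψ : K → K} (_ : IsPinv p Ψ) (s : Finset (Fin d → Fin p))
      (u : (Fin d → Fin p) → K), Ψ (∑ a ∈ s, u a) = ∑ a ∈ s, Ψ (u a) := by
    intro Ψ g s u
    exact map_sum (⟨⟨Ψ, by
      have h0 := g.add 0 0
      rw [add_zero] at h0
      exact left_eq_add.1 h0⟩, g.add⟩ : K →+ K) u s
  calc Φ f = Φ (∑ a, π a f ^ p * monY (p := p) t a) := by rw [hM.pb.repr]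
    _ = ∑ a, π a f * Φ (monY (p := p) t a) := by
        rw [sum1 h]
        exact Finset.sum_congr rfl fun a _ => h.pow_mul _ _
    _ = ∑ a, π j0 (Φ (monY (p := p) t a) ^ p * ((monY (p := p) t a)⁻¹ * f)) := by
        refine Finset.sum_congr rfl fun a _ => ?_
        rw [hπ.pow_mul, h7 a f, mul_comm]
    _ = _ := by
        rw [← sum1 hπ, Finset.sum_mul]
        exact congrArg _ (Finset.sum_congr rfl fun a _ => (mul_assoc _ _ _).symm)

/-- `p = 2`: every nonzero `p⁻¹`-linear map is of log type -/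
theorem logTy_two {K : Type} [Field K] [Algebra (ZMod 2) K] {d : ℕ}
    {t : Fin d → K} {π : (Fin d → Fin 2) → K → K} (hM : MB 2 t π) {Φ : K → K} (h : IsPinv 2 Φ)
    (h0 : ∃ x, Φ x ≠ 0) : LogTy 2 Φ := by
  have hc : CharP K 2 := charP_of_injective_algebraMap (algebraMap (ZMod 2) K).injective 2
  obtain ⟨x, hx⟩ := h0
  let w := ∑ a, Φ (monY (p := 2) t a) ^ 2 * (monY (p := 2) t a)⁻¹
  have hw : ∀ f, Φ f = π j0 (w * f) := fun f => pinv_eq hM h f
  have hπ : IsPinv 2 (π j0) := mb_pinv hM j0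
  have hz : π j0 0 = 0 := by
    have h0 := hπ.add 0 0
    rw [add_zero] at h0
    exact left_eq_add.1 h0
  have hw0 : w ≠ 0 := by
    intro h1
    refine hx ?_
    rw [hw, h1, zero_mul, hz]
  refine ⟨d, t, π, w⁻¹, hM, inv_ne_zero hw0, fun f => ?_⟩
  rw [inv_inv, hw, ← hπ.pow_mul]
  congr 1
  field_simp

/-- `p = 2`: every nonzero `p⁻¹`-linear map on the fraction field of a finitely generated algebra is
of log type -/
theorem logTy_fg {K : Type} [Field K] [Algebra (ZMod 2) K] {B : Subalgebra (ZMod 2) K}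
    (hB : B.FG) (hF : Frc B) {Φ : K → K} (h : IsPinv 2 Φ) (h0 : ∃ x, Φ x ≠ 0) : LogTy 2 Φ := by
  obtain ⟨d, t, π, hM⟩ := exists_MB hB hF
  exact logTy_two hM h h0

/-- `p = 2`: nilpotence of a nonzero `p⁻¹`-linear map on a nonzero stable submodule is transferred to
the smallest nonzero stable submodule of any nonzero `p⁻¹`-linear map, for a ring with the same
completions -/
theorem nil_om' {K K' : Type} [Field K] [Field K'] [Algebra (ZMod 2) K] [Algebra (ZMod 2) K']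
    {B : Subalgebra (ZMod 2) K} {B' : Subalgebra (ZMod 2) K'} (hB : B.FG) (hF : Frc B)
    (hB' : B'.FG) (hF' : Frc B') {Φ : K → K} {Φ' : K' → K'} (h : IsPinv 2 Φ) (h' : IsPinv 2 Φ')
    (h0 : ∃ x, Φ x ≠ 0) (h0' : ∃ x, Φ' x ≠ 0) (hs : SameC B B')
    (hnil : ∃ M' : Submodule B' K', M' ≠ ⊥ ∧ Stb Φ' M' ∧ ∀ x ∈ M', ∃ e : ℕ, Φ'^[e] x = 0) :
    ∃ M : Submodule B K, IsOm B Φ M ∧ M.FG ∧ ∀ x ∈ M, ∃ e : ℕ, Φ^[e] x = 0 :=
  nil_om hB hF hB' hF' (logTy_fg hB hF h h0) (logTy_fg hB' hF' h' h0') h h' hs hnil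

end Pool.Agent.SuMin
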