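import Mathlib

/-!
# MP_305fdd_al, surface groups, block MIN (the smallest stable module), part A

`κ : R → R` is a `p⁻¹`-linear map of a ring of characteristic `p` (`PL`).  `DB p κ c a b` is the identity
`c x = ∑ κ (a_i x) ^ p b_i` for all `x`.  It implies that every `κ`-stable ideal which contains a
nonzerodivisor contains `c ^ 3`.
-/

set_option autoImplicit false

namespace Pool.Agent.SuMin

/-- additive and `p⁻¹`-linear -/
structure PL (p : ℕ) {R : Type} [CommRing R] (κ : R → R) : Prop where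
  add : ∀ x y, κ (x + y) = κ x + κ y
  pow_mul : ∀ a b, κ (a ^ p * b) = a * κ b

/-- the dual basis identity -/
def DB (p : ℕ) {R : Type} [CommRing R] (κ : R → R) (c : R) {n : ℕ} (a b : Fin n → R) : Prop :=
  ∀ x, c * x = ∑ i, κ (a i * x) ^ p * b i

/-- `N` is stable under `κ` -/
def St {R : Type} [CommRing R] (κ : R → R) (N : Ideal R) : Prop := ∀ x ∈ N, κ x ∈ N

section

variable {p : ℕ} {R : Type} [CommRing R] {κ : R → R}

theorem PL.zero (h : PL p κ) : κ 0 = 0 := by
  have := h.add 0 0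
  rw [add_zero] at this
  exact left_eq_add.mp this

theorem PL.neg (h : PL p κ) (x : R) : κ (-x) = -κ x := by
  have := h.add x (-x)
  rw [add_neg_cancel, h.zero] at this
  exact (neg_eq_of_add_eq_zero_right this.symm).symm

theorem PL.sub (h : PL p κ) (x y : R) : κ (x - y) = κ x - κ y := by
  rw [sub_eq_add_neg, h.add, h.neg, sub_eq_add_neg]

theorem PL.sum (h : PL p κ) {ι : Type} (s : Finset ι) (f : ι → R) :
    κ (∑ i ∈ s, f i) = ∑ i ∈ s, κ (f i) := by
  classical
  induction s using Finset.induction_on with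
  | empty => simp [h.zero]
  | insert i s hi ih => rw [Finset.sum_insert hi, Finset.sum_insert hi, h.add, ih]

theorem add_pow' [Fact p.Prime] [Algebra (ZMod p) R] (x y : R) :
    (x + y) ^ p = x ^ p + y ^ p := by
  have hp : (p : R) = 0 := by
    have h1 : (p : R) = algebraMap (ZMod p) R (p : ZMod p) := by rw [map_natCast]
    rw [h1, ZMod.natCast_self, map_zero]
  obtain ⟨r, hr⟩ := exists_add_pow_prime_eq (Fact.out : p.Prime) x y
  rw [hr, hp]
  ring

theorem sum_pow' [Fact p.Prime] [Algebra (ZMod p) R] {ι : Type} (s : Finset ι) (f : ι → R) :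
    (∑ i ∈ s, f i) ^ p = ∑ i ∈ s, f i ^ p := by
  classical
  induction s using Finset.induction_on with
  | empty => simp [(Fact.out : p.Prime).ne_zero]
  | insert i s hi ih => rw [Finset.sum_insert hi, Finset.sum_insert hi, add_pow', ih]

/-- the ideal generated by the powers -/
def fp (q : ℕ) (N : Ideal R) : Ideal R := Ideal.span {y | ∃ x ∈ N, y = x ^ q}

theorem fp_pow [Fact p.Prime] [Algebra (ZMod p) R] (q : ℕ) (N : Ideal R) {y : R}
    (hy : y ∈ fp q N) : y ^ p ∈ fp (q * p) N := by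
  unfold fp at hy
  induction hy using Submodule.span_induction with
  | mem y hy =>
    obtain ⟨x, hx, rfl⟩ := hy
    rw [← pow_mul]
    exact Ideal.subset_span ⟨x, hx, rfl⟩
  | zero =>
    rw [zero_pow (Fact.out : p.Prime).ne_zero]
    exact Submodule.zero_mem _
  | add a b _ _ ha hb =>
    rw [add_pow']
    exact Submodule.add_mem _ ha hb
  | smul r a _ ha =>
    rw [smul_eq_mul, mul_pow]
    exact Ideal.mul_mem_left _ _ ha

/-- the exponents `1 + p + ... + p ^ (e - 1)` -/
def ex (p : ℕ) : ℕ → ℕ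
  | 0 => 0
  | e + 1 => 1 + p * ex p e

theorem ex_mem [Fact p.Prime] [Algebra (ZMod p) R] {c : R} {n : ℕ} {a b : Fin n → R}
    (hd : DB p κ c a b) {N : Ideal R} (hN : St κ N) (e : ℕ) :
    ∀ f ∈ N, c ^ ex p e * f ∈ fp (p ^ e) N := by
  induction e with
  | zero =>
    intro f hf
    rw [ex, pow_zero, pow_zero, one_mul]
    exact Ideal.subset_span ⟨f, hf, by rw [pow_one]⟩
  | succ e ih =>
    intro f hf
    have h1 : c ^ ex p (e + 1) * f = ∑ i, (c ^ ex p e * κ (a i * f)) ^ p * b i := by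
      have h2 : c ^ ex p (e + 1) * f = (c ^ ex p e) ^ p * (c * f) := by
        rw [ex]
        ring
      rw [h2, hd f, Finset.mul_sum]
      refine Finset.sum_congr rfl fun i _ => ?_
      ring
    rw [h1]
    refine Submodule.sum_mem _ fun i _ => ?_
    refine Ideal.mul_mem_right _ _ ?_
    rw [pow_succ]
    exact fp_pow _ _ (ih _ (hN _ (Ideal.mul_mem_left _ _ hf)))

/-- a stable ideal which contains a nonzerodivisor contains a power of `c` -/
theorem rad_mem [Fact p.Prime] [Algebra (ZMod p) R] [IsNoetherianRing R] {c : R} {n : ℕ}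
    {a b : Fin n → R} (hd : DB p κ c a b) {N : Ideal R} (hN : St κ N) {f : R} (hf : f ∈ N)
    (hf0 : f ∈ nonZeroDivisors R) : c ∈ N.radical := by
  rw [Ideal.radical_eq_sInf, Ideal.mem_sInf]
  rintro q ⟨hNq, hq⟩
  by_contra hc
  have hK := Ideal.iInf_pow_eq_bot_of_isLocalRing
    (IsLocalRing.maximalIdeal (Localization.AtPrime q)) (Ideal.IsPrime.ne_top inferInstance)
  have h1 : algebraMap R (Localization.AtPrime q) f ∈
      ⨅ i : ℕ, (IsLocalRing.maximalIdeal (Localization.AtPrime q)) ^ i := by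
    rw [Ideal.mem_iInf]
    intro i
    have hlt : i ≤ p ^ i := (Nat.lt_pow_self (Fact.out : p.Prime).one_lt).le
    have h2 : c ^ ex p i * f ∈ q ^ i := by
      refine (?_ : fp (p ^ i) N ≤ q ^ i) (ex_mem hd hN i f hf)
      refine Ideal.span_le.2 ?_
      rintro _ ⟨x, hx, rfl⟩
      exact Ideal.pow_le_pow_right hlt (Ideal.pow_mem_pow (hNq hx) _)
    have h3 : algebraMap R (Localization.AtPrime q) (c ^ ex p i * f) ∈
        (IsLocalRing.maximalIdeal (Localization.AtPrime q)) ^ i := by
      rw [← Localization.AtPrime.map_eq_maximalIdeal, ← Ideal.map_pow]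
      exact Ideal.mem_map_of_mem _ h2
    rw [map_mul, map_pow] at h3
    have hu : IsUnit (algebraMap R (Localization.AtPrime q) c) :=
      IsLocalization.map_units (Localization.AtPrime q) (⟨c, hc⟩ : q.primeCompl)
    exact (Ideal.unit_mul_mem_iff_mem _ (hu.pow _)).1 h3
  rw [hK, Ideal.mem_bot, IsLocalization.map_eq_zero_iff q.primeCompl] at h1
  obtain ⟨s, hs⟩ := h1
  have h4 : (s : R) = 0 := by
    rw [mul_comm] at hs
    exact (mem_nonZeroDivisors_iff_right.1 hf0) s (by rw [mul_comm]; exact hs)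
  exact s.2 (by rw [h4]; exact Submodule.zero_mem _)

/-- a stable ideal which contains a nonzerodivisor contains `c ^ 3` -/
theorem three_mem [Fact p.Prime] [Algebra (ZMod p) R] [IsNoetherianRing R] (h : PL p κ) {c : R}
    {n : ℕ} {a b : Fin n → R} (hd : DB p κ c a b) {N : Ideal R} (hN : St κ N) {f : R}
    (hf : f ∈ N) (hf0 : f ∈ nonZeroDivisors R) : c ^ 3 ∈ N := by
  have hp := (Fact.out : p.Prime)
  obtain ⟨k, hk⟩ := rad_mem hd hN hf hf0
  obtain ⟨a₀, ha₀⟩ : ∃ a₀, κ a₀ = c := by
    refine ⟨∑ i, (κ (a i) ^ (p - 1) * b i) ^ p * a i, ?_⟩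
    rw [h.sum]
    have h1 := hd 1
    rw [mul_one] at h1
    rw [h1]
    refine Finset.sum_congr rfl fun i _ => ?_
    rw [h.pow_mul, mul_one]
    have h2 : κ (a i) ^ p = κ (a i) ^ (p - 1) * κ (a i) := by
      rw [← pow_succ, Nat.sub_add_cancel hp.one_le]
    rw [h2]
    ring
  have step : ∀ l : ℕ, c ^ (p * l) ∈ N → c ^ (l + 1) ∈ N := by
    intro l hl
    have h1 : c ^ (l + 1) = κ ((c ^ l) ^ p * a₀) := by
      rw [h.pow_mul, ha₀, pow_succ]
    rw [h1]
    refine hN _ (Ideal.mul_mem_right _ _ ?_)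
    rw [← pow_mul, mul_comm]
    exact hl
  induction k using Nat.strong_induction_on with
  | _ k ih =>
    by_cases h3 : k ≤ 3
    · have h4 : c ^ 3 = c ^ k * c ^ (3 - k) := by rw [← pow_add, Nat.add_sub_cancel' h3]
      rw [h4]
      exact Ideal.mul_mem_right _ _ hk
    · push Not at h3
      refine ih ((k + 1) / 2 + 1) (by omega) (step _ ?_)
      have h5 : k ≤ p * ((k + 1) / 2) := by
        have h6 : 2 * ((k + 1) / 2) ≤ p * ((k + 1) / 2) := Nat.mul_le_mul_right _ hp.two_le
        omega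
      have h7 : c ^ (p * ((k + 1) / 2)) = c ^ k * c ^ (p * ((k + 1) / 2) - k) := by
        rw [← pow_add, Nat.add_sub_cancel' h5]
      rw [h7]
      exact Ideal.mul_mem_right _ _ hk

/-- the smallest stable ideal which contains `x` -/
def mn (κ : R → R) (x : R) : Ideal R := sInf {N | St κ N ∧ x ∈ N}

theorem mn_st (x : R) : St κ (mn κ x) := by
  intro y hy
  rw [mn, Ideal.mem_sInf] at hy ⊢
  intro N hN
  exact hN.1 _ (hy hN)

theorem mem_mn (x : R) : x ∈ mn κ x := by
  rw [mn, Ideal.mem_sInf]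
  exact fun {N} hN => hN.2

theorem mn_le {x : R} {N : Ideal R} (hN : St κ N) (hx : x ∈ N) : mn κ x ≤ N :=
  sInf_le ⟨hN, hx⟩

/-- `mn κ (c ^ 3)` is the smallest stable ideal which contains a nonzerodivisor -/
theorem mn_min [Fact p.Prime] [Algebra (ZMod p) R] [IsNoetherianRing R] (h : PL p κ) {c : R}
    {n : ℕ} {a b : Fin n → R} (hd : DB p κ c a b) {N : Ideal R} (hN : St κ N) {f : R}
    (hf : f ∈ N) (hf0 : f ∈ nonZeroDivisors R) : mn κ (c ^ 3) ≤ N :=
  mn_le hN (three_mem h hd hN hf hf0)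

end

end Pool.Agent.SuMin
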