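import Pool.Agent.Lib.MP_305fdd_al.Su.Min.A
import Pool.Agent.Lib.MP_305fdd_al.Su.TR.Defs
import Pool.Agent.Lib.MP_305fdd_al.Fr.N.E.p_prok

/-!
# MP_305fdd_al, surface groups, block MIN, part B: extension to the completion

`φ : B → R` is the `J`-adic completion (`SuTR.Comp`); a `p⁻¹`-linear map `κ` of `B` extends to `R`,
and so does the identity `DB`.
-/

set_option autoImplicit false

namespace Pool.Agent.SuMin

open Pool.Agent.SuTR (Comp)

section cont

variable {p : ℕ} {R : Type} [CommRing R] {κ : R → R}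

/-- `p⁻¹`-linear maps are continuous; `N` is a stable ideal -/
theorem cont [Fact p.Prime] [IsNoetherianRing R] (h : PL p κ) (𝔪 : Ideal R) (n : ℕ) :
    ∃ l, n ≤ l ∧ ∀ N : Ideal R, St κ N → ∀ x ∈ 𝔪 ^ l * N, κ x ∈ 𝔪 ^ n * N := by
  set J : Ideal R := Ideal.span {c | ∃ b ∈ 𝔪 ^ n, c = b ^ p} with hJ
  have hrad : 𝔪 ^ n ≤ J.radical := by
    intro b hb
    exact ⟨p, Ideal.subset_span ⟨b, hb, rfl⟩⟩
  obtain ⟨t, ht⟩ := J.exists_radical_pow_le_of_fg (IsNoetherian.noetherian _)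
  have h5 : 𝔪 ^ (n * (t + 1)) ≤ J := by
    rw [pow_mul]
    refine le_trans (Ideal.pow_le_pow_right (Nat.le_succ t)) ?_
    exact le_trans (Ideal.pow_right_mono hrad t) ht
  refine ⟨n * (t + 1), Nat.le_mul_of_pos_right n (Nat.succ_pos t), fun N hN x hx => ?_⟩
  have h6 : x ∈ J * N := Ideal.mul_mono_left h5 hx
  have h7 : ∀ r ∈ J, ∀ m ∈ N, κ (r * m) ∈ 𝔪 ^ n * N := by
    intro r hr
    rw [hJ] at hr
    induction hr using Submodule.span_induction with
    | mem c hc =>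
      obtain ⟨b, hb, rfl⟩ := hc
      intro m hm
      rw [h.pow_mul]
      exact Ideal.mul_mem_mul hb (hN m hm)
    | zero =>
      intro m _
      rw [zero_mul, h.zero]
      exact Submodule.zero_mem _
    | add a b _ _ ha hb =>
      intro m hm
      rw [add_mul, h.add]
      exact Submodule.add_mem _ (ha m hm) (hb m hm)
    | smul c a _ ha =>
      intro m hm
      rw [smul_eq_mul, mul_comm c a, mul_assoc]
      exact ha _ (N.mul_mem_left c hm)
  refine Submodule.mul_induction_on h6 h7 ?_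
  intro a b ha hb
  rw [h.add]
  exact Submodule.add_mem _ ha hb

theorem cont1 [Fact p.Prime] [IsNoetherianRing R] (h : PL p κ) (𝔪 : Ideal R) (n : ℕ) :
    ∃ l, n ≤ l ∧ ∀ x ∈ 𝔪 ^ l, κ x ∈ 𝔪 ^ n := by
  obtain ⟨l, h1, h2⟩ := cont h 𝔪 n
  refine ⟨l, h1, fun x hx => ?_⟩
  have h3 := h2 ⊤ (fun _ _ => Submodule.mem_top) x
  rw [Ideal.mul_top, Ideal.mul_top] at h3
  exact h3 hx

end cont

section comp

variable {B R : Type} [CommRing B] [CommRing R] {φ : B →+* R} {J : Ideal B}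

theorem map_pow_mem (φ : B →+* R) {J : Ideal B} {n : ℕ} {b : B} (hb : b ∈ J ^ n) :
    φ b ∈ (J.map φ) ^ n := by
  rw [← Ideal.map_pow]
  exact Ideal.mem_map_of_mem _ hb

theorem Comp.inj (hc : Comp φ J) (hJ : ∀ b : B, (∀ n, b ∈ J ^ n) → b = 0) :
    Function.Injective φ := by
  rw [injective_iff_map_eq_zero]
  intro b hb
  refine hJ b fun n => hc.top n b ?_
  rw [hb]
  exact Submodule.zero_mem _

/-- nonzero elements of the domain `B` are nonzerodivisors of `R` -/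
theorem Comp.nzd [IsDomain B] (hc : Comp φ J) {c : B} (hc0 : c ≠ 0) :
    φ c ∈ nonZeroDivisors R := by
  rw [mem_nonZeroDivisors_iff_right]
  intro r hr
  obtain ⟨m, s, c', h1, h2⟩ := hc.flat 1 (fun _ => c) (fun _ => r) (by simpa using hr)
  have h3 : ∀ j, c' j 0 = 0 := by
    intro j
    have := h2 j
    rw [Fin.sum_univ_one] at this
    exact (mul_eq_zero.1 this).resolve_right hc0
  have h4 := h1 0
  rw [h4]
  refine Finset.sum_eq_zero fun j _ => ?_
  rw [h3 j, map_zero, mul_zero]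

/-- two elements which are congruent modulo all powers are equal -/
theorem Comp.eq (hc : Comp φ J) {x y : R} (h : ∀ n, x - y ∈ (J.map φ) ^ n) : x = y :=
  sub_eq_zero.1 (hc.sep _ h)

/-- extension of a `p⁻¹`-linear map to the completion -/
theorem ext {p : ℕ} [Fact p.Prime] [IsNoetherianRing B] (hc : Comp φ J) {κ : B → B}
    (h : PL p κ) : ∃ κ' : R → R, PL p κ' ∧ ∀ b, κ' (φ b) = φ (κ b) := by
  set r := J.map φ with hr
  choose l₀ hl₀ hlm₀ using fun n => cont1 h J n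
  obtain ⟨l, hl, hmono, hlm⟩ : ∃ l : ℕ → ℕ, (∀ n, n ≤ l n) ∧ (∀ n, l n ≤ l (n + 1)) ∧
      ∀ n, ∀ x ∈ J ^ l n, κ x ∈ J ^ n := by
    refine ⟨fun n => ∑ i ∈ Finset.range (n + 1), l₀ i, fun n => ?_, fun n => ?_, fun n x hx => ?_⟩
    · exact (hl₀ n).trans (Finset.single_le_sum (f := l₀) (fun _ _ => Nat.zero_le _)
        (Finset.mem_range.2 (Nat.lt_succ_self n)))
    · change ∑ i ∈ Finset.range (n + 1), l₀ i ≤ ∑ i ∈ Finset.range (n + 1 + 1), l₀ i
      rw [Finset.sum_range_succ _ (n + 1)]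
      exact Nat.le_add_right _ _
    · refine hlm₀ n x (Ideal.pow_le_pow_right ?_ hx)
      exact Finset.single_le_sum (f := l₀) (fun _ _ => Nat.zero_le _)
        (Finset.mem_range.2 (Nat.lt_succ_self n))
  have key : ∀ x : R, ∃ y : R, ∀ n, ∀ b, x - φ b ∈ r ^ l n → y - φ (κ b) ∈ r ^ n := by
    intro x
    choose b hb using fun n => hc.dense (l n) x
    have hd : ∀ n b b', x - φ b ∈ r ^ l n → x - φ b' ∈ r ^ l n → κ b - κ b' ∈ J ^ n := by
      intro n b b' hb hb'
      rw [← h.sub]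
      refine hlm n _ (hc.top _ _ ?_)
      have := Submodule.sub_mem _ hb' hb
      have e : x - φ b' - (x - φ b) = φ (b - b') := by rw [map_sub]; ring
      rwa [e] at this
    have hd' : ∀ n, κ (b (n + 1)) - κ (b n) ∈ J ^ n := fun n =>
      hd n _ _ (Ideal.pow_le_pow_right (hmono n) (hb (n + 1))) (hb n)
    obtain ⟨y, hy⟩ := hc.cpl (fun n => κ (b n)) hd'
    refine ⟨y, fun n b' hb' => ?_⟩
    have h1 := hd n (b n) b' (hb n) hb'
    have h2 := Submodule.add_mem _ (hy n) (map_pow_mem φ h1)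
    have e : y - φ (κ (b n)) + φ (κ (b n) - κ b') = y - φ (κ b') := by rw [map_sub]; ring
    rwa [e] at h2
  choose κ' hκ' using key
  refine ⟨κ', ⟨fun x y => Comp.eq hc fun n => ?_, fun a x => Comp.eq hc fun n => ?_⟩,
    fun b => Comp.eq hc fun n => ?_⟩
  · obtain ⟨b, hb⟩ := hc.dense (l n) x
    obtain ⟨b', hb'⟩ := hc.dense (l n) y
    have h1 := hκ' (x + y) n (b + b') (by
      have := Submodule.add_mem _ hb hb'
      have e : x - φ b + (y - φ b') = x + y - φ (b + b') := by rw [map_add]; ring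
      rwa [e] at this)
    have h2 := Submodule.sub_mem _ h1 (Submodule.add_mem _ (hκ' x n b hb) (hκ' y n b' hb'))
    have e : κ' (x + y) - φ (κ (b + b')) - (κ' x - φ (κ b) + (κ' y - φ (κ b'))) =
        κ' (x + y) - (κ' x + κ' y) := by
      rw [h.add, map_add]
      ring
    rwa [e] at h2
  · obtain ⟨b, hb⟩ := hc.dense (l n) x
    obtain ⟨α, hα⟩ := hc.dense (l n) a
    have h0 : a ^ p - φ α ^ p ∈ r ^ l n := by
      obtain ⟨z, hz⟩ := sub_dvd_pow_sub_pow a (φ α) p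
      rw [hz]
      exact Ideal.mul_mem_right _ _ hα
    have h1 := hκ' (a ^ p * x) n (α ^ p * b) (by
      have := Submodule.add_mem _ (Ideal.mul_mem_left _ (a ^ p) hb) (Ideal.mul_mem_right (φ b) _ h0)
      have e : a ^ p * (x - φ b) + (a ^ p - φ α ^ p) * φ b = a ^ p * x - φ (α ^ p * b) := by
        rw [map_mul, map_pow]
        ring
      rwa [e] at this)
    have h2 := hκ' x n b hb
    have h3 : a - φ α ∈ r ^ n := Ideal.pow_le_pow_right (hl n) hα
    have h4 := Submodule.sub_mem _ h1 (Submodule.add_mem _ (Ideal.mul_mem_left _ a h2)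
      (Ideal.mul_mem_right (φ (κ b)) _ h3))
    have e : κ' (a ^ p * x) - φ (κ (α ^ p * b)) - (a * (κ' x - φ (κ b)) +
        (a - φ α) * φ (κ b)) = κ' (a ^ p * x) - a * κ' x := by
      rw [h.pow_mul, map_mul]
      ring
    rwa [e] at h4
  · have := hκ' (φ b) n b (by rw [sub_self]; exact Submodule.zero_mem _)
    exact this

/-- the identity `DB` extends to the completion -/
theorem DB_ext {p : ℕ} [Fact p.Prime] (hc : Comp φ J) {κ : B → B} {κ' : R → R}
    (h' : PL p κ') (hκ : ∀ b, κ' (φ b) = φ (κ b)) {c : B} {n : ℕ} {a b : Fin n → B}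
    (hd : DB p κ c a b) : DB p κ' (φ c) (fun i => φ (a i)) fun i => φ (b i) := by
  have := hc.noeth
  intro x
  refine Comp.eq hc fun m => ?_
  obtain ⟨l, hl, hlm⟩ := cont1 h' (J.map φ) m
  obtain ⟨y, hy⟩ := hc.dense l x
  have h1 : φ c * φ y = ∑ i, κ' (φ (a i) * φ y) ^ p * φ (b i) := by
    rw [← map_mul, hd y, map_sum]
    refine Finset.sum_congr rfl fun i _ => ?_
    rw [map_mul, map_pow, ← map_mul, hκ]
  have h2 : φ c * x - ∑ i, κ' (φ (a i) * x) ^ p * φ (b i) = φ c * (x - φ y) -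
      ∑ i, (κ' (φ (a i) * x) ^ p - κ' (φ (a i) * φ y) ^ p) * φ (b i) := by
    have h3 : ∑ i, (κ' (φ (a i) * x) ^ p - κ' (φ (a i) * φ y) ^ p) * φ (b i) =
        ∑ i, κ' (φ (a i) * x) ^ p * φ (b i) - ∑ i, κ' (φ (a i) * φ y) ^ p * φ (b i) := by
      rw [← Finset.sum_sub_distrib]
      refine Finset.sum_congr rfl fun i _ => ?_
      ring
    rw [h3, ← h1]
    ring
  rw [h2]
  refine Submodule.sub_mem _ (Ideal.mul_mem_left _ _ (Ideal.pow_le_pow_right hl hy)) ?_
  refine Submodule.sum_mem _ fun i _ => Ideal.mul_mem_right _ _ ?_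
  obtain ⟨z, hz⟩ := sub_dvd_pow_sub_pow (κ' (φ (a i) * x)) (κ' (φ (a i) * φ y)) p
  rw [hz]
  refine Ideal.mul_mem_right _ _ ?_
  rw [← h'.sub, ← mul_sub]
  exact hlm _ (Ideal.mul_mem_left _ _ hy)

end comp

end Pool.Agent.SuMin
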