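import Pool.Agent.Lib.MP_305fdd_al.Su.Min.B

/-!
# MP_305fdd_al, surface groups, block MIN, part C: the hull over the completion
-/

set_option autoImplicit false

namespace Pool.Agent.SuMin

open Pool.Agent.SuTR (Comp)
open Pool.Agent.FrN Pool.Agent.FrNE

/-- a stable ideal as a Cartier module -/
def iC {p : ℕ} [Fact p.Prime] {R : Type} [CommRing R] [Algebra (ZMod p) R] {κ : R → R}
    (h : PL p κ) (N : Ideal R) (hN : St κ N) : CMod p R where
  M := N
  C :=
    { toFun := fun x => ⟨κ x.1, hN x.1 x.2⟩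
      map_add' := fun x y => Subtype.ext (h.add x.1 y.1)
      map_smul' := fun c x => Subtype.ext (by
        change κ (c • x.1) = c • κ x.1
        have h1 : (algebraMap (ZMod p) R c) ^ p = algebraMap (ZMod p) R c := by
          rw [← map_pow, ZMod.pow_card]
        rw [Algebra.smul_def, Algebra.smul_def]
        conv_lhs => rw [← h1]
        exact h.pow_mul _ _) }
  hC b m := Subtype.ext (h.pow_mul b m.1)

section

set_option linter.unusedSectionVars false

variable {p : ℕ} [Fact p.Prime] {B R : Type} [CommRing B] [CommRing R] [IsNoetherianRing B]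
  {φ : B →+* R} {J : Ideal B} {κ : B → B} {κ' : R → R}

omit [IsNoetherianRing B] in
theorem mn_map (hκ : ∀ b, κ' (φ b) = φ (κ b)) (c : B) :
    ∀ x ∈ mn κ c, φ x ∈ mn κ' (φ c) := by
  have h1 : mn κ c ≤ (mn κ' (φ c)).comap φ := by
    refine mn_le ?_ (mem_mn (κ := κ') (φ c))
    intro x hx
    rw [Ideal.mem_comap] at hx ⊢
    rw [← hκ]
    exact mn_st _ _ hx
  exact fun x hx => h1 hx

omit [IsNoetherianRing B] in
theorem mn_dense (hc : Comp φ J) (h' : PL p κ')
    (hκ : ∀ b, κ' (φ b) = φ (κ b)) (c : B) (n : ℕ) :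
    ∀ y ∈ mn κ' (φ c), ∃ x ∈ mn κ c, y - φ x ∈ (J.map φ) ^ n * mn κ' (φ c) := by
  have hn := hc.noeth
  set r := J.map φ with hr
  set N' := mn κ' (φ c) with hN'
  let Q : Ideal R :=
    { carrier := {y | y ∈ N' ∧ ∀ n : ℕ, ∃ x ∈ mn κ c, y - φ x ∈ r ^ n * N'}
      zero_mem' := ⟨N'.zero_mem, fun n => ⟨0, Submodule.zero_mem _, by
        rw [map_zero, sub_zero]
        exact Submodule.zero_mem _⟩⟩
      add_mem' := by
        rintro y y' ⟨hy, hy'⟩ ⟨hz, hz'⟩
        refine ⟨N'.add_mem hy hz, fun n => ?_⟩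
        obtain ⟨x, hx, hx'⟩ := hy' n
        obtain ⟨w, hw, hw'⟩ := hz' n
        refine ⟨x + w, Submodule.add_mem _ hx hw, ?_⟩
        have e : y + y' - φ (x + w) = y - φ x + (y' - φ w) := by rw [map_add]; ring
        rw [e]
        exact Submodule.add_mem _ hx' hw'
      smul_mem' := by
        rintro a y ⟨hy, hy'⟩
        refine ⟨N'.mul_mem_left a hy, fun n => ?_⟩
        obtain ⟨x, hx, hx'⟩ := hy' n
        obtain ⟨b, hb⟩ := hc.dense n a
        refine ⟨b * x, Ideal.mul_mem_left _ _ hx, ?_⟩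
        have e : a • y - φ (b * x) = (a - φ b) * y + φ b * (y - φ x) := by
          rw [smul_eq_mul, map_mul]; ring
        rw [e]
        exact Submodule.add_mem _ (Ideal.mul_mem_mul hb hy) (Ideal.mul_mem_left _ _ hx') }
  have hQ : N' ≤ Q := by
    refine mn_le ?_ ?_
    · rintro y ⟨hy, hy'⟩
      refine ⟨mn_st _ _ hy, fun n => ?_⟩
      obtain ⟨l, _, hl⟩ := cont h' r n
      obtain ⟨x, hx, hx'⟩ := hy' l
      refine ⟨κ x, mn_st _ _ hx, ?_⟩
      rw [← hκ, ← h'.sub]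
      exact hl N' (mn_st _) _ hx'
    · refine ⟨mem_mn _, fun n => ⟨c, mem_mn _, ?_⟩⟩
      rw [sub_self]
      exact Submodule.zero_mem _
  exact fun y hy => (hQ hy).2 n

/-- the hull over `B` and the hull over `R` form a pro-bijective pair -/
theorem mn_pro (hc : Comp φ J) (h' : PL p κ') (hκ : ∀ b, κ' (φ b) = φ (κ b))
    (c : B) : ∃ ι : mn κ c →+ mn κ' (φ c), (∀ x, (ι x : R) = φ x) ∧
      Pro φ J (J.map φ) ι := by
  let ι : mn κ c →+ mn κ' (φ c) :=
    { toFun := fun x => ⟨φ x.1, mn_map hκ c x.1 x.2⟩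
      map_zero' := Subtype.ext (map_zero φ)
      map_add' := fun x y => Subtype.ext (map_add φ x.1 y.1) }
  have hι : ∀ x, (ι x : R) = φ x := fun x => rfl
  refine ⟨ι, hι, ⟨fun a x => Subtype.ext ?_, fun j y => ?_, fun j => ?_⟩⟩
  · change φ (a * x.1) = φ a * φ x.1
    rw [map_mul]
  · obtain ⟨x, hx, hx'⟩ := mn_dense hc h' hκ c j y.1 y.2
    refine ⟨⟨x, hx⟩, ?_⟩
    rw [prok.mem_sub]
    exact hx'
  · obtain ⟨n, hn⟩ := prok.ar J (mn κ c) j
    refine ⟨n, fun x hx => ?_⟩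
    rw [prok.mem_sub] at hx ⊢
    refine hn x.1 ?_ x.2
    have h1 : φ x.1 ∈ (J.map φ) ^ n :=
      (Ideal.mul_le_left : (J.map φ) ^ n * mn κ' (φ c) ≤ (J.map φ) ^ n) hx
    have h2 := hc.top n x.1 h1
    rw [smul_eq_mul, Ideal.mul_top]
    exact h2

end

end Pool.Agent.SuMin
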