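import Pool.Agent.Lib.MP_305fdd_al.Su.Min.C

/-!
# MP_305fdd_al, surface groups, block MIN, part D: comparison of two `p⁻¹`-linear maps (`p = 2`)
-/

set_option autoImplicit false

namespace Pool.Agent.SuMin

open Pool.Agent.SuTR (Comp)
open Pool.Agent.FrN Pool.Agent.FrNE

section

variable {p : ℕ} [Fact p.Prime] {R : Type} [CommRing R] [Algebra (ZMod p) R] {κ κ' : R → R}

/-- every `p⁻¹`-linear map is a multiple of `κ`, up to denominators -/
theorem can₀ (h : PL p κ) (h' : PL p κ') {c : R} {n : ℕ} {a b : Fin n → R}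
    (hd : DB p κ c a b) : ∃ g : R, ∀ x, c * κ' x = κ (g * x) := by
  have hp := (Fact.out : p.Prime)
  refine ⟨∑ i, κ' (c ^ (p - 1) * b i) ^ p * a i, fun x => ?_⟩
  have h1 : c ^ p * x = ∑ i, κ (a i * x) ^ p * (c ^ (p - 1) * b i) := by
    have h2 : c ^ p * x = c ^ (p - 1) * (c * x) := by
      rw [← mul_assoc, ← pow_succ, Nat.sub_add_cancel hp.one_le]
    rw [h2, hd x, Finset.mul_sum]
    refine Finset.sum_congr rfl fun i _ => ?_
    ring
  rw [← h'.pow_mul, h1, h'.sum, Finset.sum_mul, h.sum]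
  refine Finset.sum_congr rfl fun i _ => ?_
  rw [h'.pow_mul, mul_assoc, h.pow_mul]
  ring

/-- the symmetric form -/
theorem can (h : PL p κ) (h' : PL p κ') {c c' : R} {n n' : ℕ} {a b : Fin n → R}
    {a' b' : Fin n' → R} (hd : DB p κ c a b) (hd' : DB p κ' c' a' b')
    (hc : c ∈ nonZeroDivisors R) :
    ∃ g g' : R, (∀ x, c * κ' x = κ (g * x)) ∧ (∀ x, c' * κ x = κ' (g' * x)) ∧
      g * g' = (c * c') ^ p := by
  obtain ⟨g, hg⟩ := can₀ h h' hd
  obtain ⟨g', hg'⟩ := can₀ h' h hd'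
  refine ⟨g, g', hg, hg', ?_⟩
  have h1 : ∀ x, κ ((g * g' - (c * c') ^ p) * x) = 0 := by
    intro x
    rw [sub_mul, h.sub, h.pow_mul, mul_assoc g g' x, ← hg, ← hg']
    ring
  have h2 := hd (g * g' - (c * c') ^ p)
  have h3 : ∀ i, κ (a i * (g * g' - (c * c') ^ p)) = 0 := by
    intro i
    rw [mul_comm]
    exact h1 _
  have h4 : c * (g * g' - (c * c') ^ p) = 0 := by
    rw [h2]
    refine Finset.sum_eq_zero fun i _ => ?_
    rw [h3 i, zero_pow (Fact.out : p.Prime).ne_zero, zero_mul]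
  have h5 := (mem_nonZeroDivisors_iff_right.1 hc) _ (by rw [mul_comm]; exact h4)
  exact sub_eq_zero.1 h5

end

section two

variable {R : Type} [CommRing R] [Algebra (ZMod 2) R] [IsNoetherianRing R] {κ κ' : R → R}

/-- `p = 2`: multiplication by `g / c ^ 2` maps the smallest stable ideal for `κ` onto the one for
`κ'` -/
theorem mn_iso (h : PL 2 κ) (h' : PL 2 κ') {c c' g g' : R} {n n' : ℕ} {a b : Fin n → R}
    {a' b' : Fin n' → R} (hd : DB 2 κ c a b) (hd' : DB 2 κ' c' a' b')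
    (hc : c ∈ nonZeroDivisors R) (hc' : c' ∈ nonZeroDivisors R)
    (hg : ∀ x, c * κ' x = κ (g * x)) (hgg : g * g' = (c * c') ^ 2) :
    ∃ ι : mn κ (c ^ 3) →+ mn κ' (c' ^ 3), Function.Bijective ι ∧
      (∀ x, c ^ 2 * (ι x : R) = g * x) ∧
      (∀ (r : R) (x : mn κ (c ^ 3)), ι (r • x) = r • ι x) ∧
      ∀ (x : mn κ (c ^ 3)) (y : mn κ (c ^ 3)), (y : R) = κ x → (ι y : R) = κ' (ι x) := by
  have hc2 : c ^ 2 ∈ nonZeroDivisors R := pow_mem hc 2
  have hgn : g ∈ nonZeroDivisors R := by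
    rw [mem_nonZeroDivisors_iff_right]
    intro x hx
    have h1 : x * (c * c') ^ 2 = 0 := by rw [← hgg, ← mul_assoc, hx, zero_mul]
    exact (mem_nonZeroDivisors_iff_right.1 (pow_mem (mul_mem hc hc') 2)) x h1
  -- the relation is compatible with the operators
  have key : ∀ x y : R, c ^ 2 * y = g * x → c ^ 2 * κ' y = g * κ x := by
    intro x y hxy
    have h1 : c ^ 2 * κ' y = κ (g * (c ^ 2 * y)) := by
      rw [pow_two, mul_assoc, hg, ← h.pow_mul]
      congr 1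
      ring
    rw [h1, hxy, ← h.pow_mul]
    congr 1
    ring
  let N₁ : Ideal R :=
    { carrier := {x | ∃ y ∈ mn κ' (c' ^ 3), c ^ 2 * y = g * x}
      zero_mem' := ⟨0, Submodule.zero_mem _, by rw [mul_zero, mul_zero]⟩
      add_mem' := by
        rintro x x' ⟨y, hy, hxy⟩ ⟨y', hy', hxy'⟩
        exact ⟨y + y', Submodule.add_mem _ hy hy', by rw [mul_add, mul_add, hxy, hxy']⟩
      smul_mem' := by
        rintro r x ⟨y, hy, hxy⟩
        refine ⟨r * y, Ideal.mul_mem_left _ _ hy, ?_⟩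
        rw [smul_eq_mul, mul_left_comm, hxy]
        ring }
  have hN₁ : mn κ (c ^ 3) ≤ N₁ := by
    refine mn_min h hd (f := c ^ 2 * c' ^ 3) ?_ ?_ (mul_mem hc2 (pow_mem hc' 3))
    · rintro x ⟨y, hy, hxy⟩
      exact ⟨κ' y, mn_st _ _ hy, key x y hxy⟩
    · exact ⟨g * c' ^ 3, Ideal.mul_mem_left _ _ (mem_mn _), by ring⟩
  let N₂ : Ideal R :=
    { carrier := {y | ∃ x ∈ mn κ (c ^ 3), c ^ 2 * y = g * x}
      zero_mem' := ⟨0, Submodule.zero_mem _, by rw [mul_zero, mul_zero]⟩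
      add_mem' := by
        rintro x x' ⟨y, hy, hxy⟩ ⟨y', hy', hxy'⟩
        exact ⟨y + y', Submodule.add_mem _ hy hy', by rw [mul_add, mul_add, hxy, hxy']⟩
      smul_mem' := by
        rintro r x ⟨y, hy, hxy⟩
        refine ⟨r * y, Ideal.mul_mem_left _ _ hy, ?_⟩
        rw [smul_eq_mul, mul_left_comm, hxy]
        ring }
  have hN₂ : mn κ' (c' ^ 3) ≤ N₂ := by
    refine mn_min h' hd' (f := g * c ^ 3) ?_ ?_ (mul_mem hgn (pow_mem hc 3))
    · rintro y ⟨x, hx, hxy⟩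
      exact ⟨κ x, mn_st _ _ hx, key x y hxy⟩
    · exact ⟨c ^ 2 * c ^ 3, Ideal.mul_mem_left _ _ (mem_mn _), by ring⟩
  have hcan : ∀ y y' : R, c ^ 2 * y = c ^ 2 * y' → y = y' := by
    intro y y' hy
    have h1 : (y - y') * c ^ 2 = 0 := by
      rw [sub_mul, mul_comm y, mul_comm y', hy, sub_self]
    exact sub_eq_zero.1 ((mem_nonZeroDivisors_iff_right.1 hc2) _ h1)
  have hcan' : ∀ y y' : R, g * y = g * y' → y = y' := by
    intro y y' hy
    have h1 : (y - y') * g = 0 := by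
      rw [sub_mul, mul_comm y, mul_comm y', hy, sub_self]
    exact sub_eq_zero.1 ((mem_nonZeroDivisors_iff_right.1 hgn) _ h1)
  choose f hf hfe using fun x : mn κ (c ^ 3) => hN₁ x.2
  let ι : mn κ (c ^ 3) →+ mn κ' (c' ^ 3) :=
    { toFun := fun x => ⟨f x, hf x⟩
      map_zero' := Subtype.ext (hcan _ _ (by
        change c ^ 2 * f 0 = c ^ 2 * 0
        rw [hfe, mul_zero]
        change g * 0 = 0
        rw [mul_zero]))
      map_add' := fun x y => Subtype.ext (hcan _ _ (by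
        change c ^ 2 * f (x + y) = c ^ 2 * (f x + f y)
        rw [hfe, mul_add, hfe, hfe]
        change g * (x.1 + y.1) = _
        rw [mul_add])) }
  have hι : ∀ x, c ^ 2 * (ι x : R) = g * x := hfe
  refine ⟨ι, ⟨?_, ?_⟩, hι, ?_, ?_⟩
  · intro x y hxy
    refine Subtype.ext (hcan' _ _ ?_)
    rw [← hι, ← hι, hxy]
  · intro y
    obtain ⟨x, hx, hxy⟩ := hN₂ y.2
    refine ⟨⟨x, hx⟩, Subtype.ext (hcan _ _ ?_)⟩
    rw [hι, hxy]
  · intro r x
    refine Subtype.ext (hcan _ _ ?_)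
    rw [hι]
    change g * (r * x.1) = c ^ 2 * (r * (ι x : R))
    rw [mul_left_comm, mul_left_comm (c ^ 2), hι]
  · intro x y hxy
    refine hcan _ _ ?_
    rw [hι, hxy]
    exact (key x.1 (ι x : R) (hι x)).symm

end two

end Pool.Agent.SuMin
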