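import Pool.Agent.Lib.MP_305fdd_al.Su.Min.D
import Pool.Agent.Lib.MP_305fdd_al.Su.Ind.Cmp

/-!
# MP_305fdd_al, surface groups, block MIN, part E: equality of the polynomials (rings)
-/

set_option autoImplicit false

namespace Pool.Agent.SuMin

open Pool.Agent.SuTR (Comp Jd)
open Pool.Agent.FrN Pool.Agent.FrNE Pool.Agent.FrNA

/-- composition with a bijective linear map -/
theorem pro_comp {A B : Type} [CommRing A] [CommRing B] {φ : A →+* B} {𝔞 : Ideal A} {𝔪 : Ideal B}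
    {M M' M'' : Type} [AddCommGroup M] [Module A M] [AddCommGroup M'] [Module B M']
    [AddCommGroup M''] [Module B M''] {ι : M →+ M'} (hι : Pro φ 𝔞 𝔪 ι) (e : M' →+ M'')
    (he : ∀ (r : B) (x : M'), e (r • x) = r • e x) (hb : Function.Bijective e) :
    Pro φ 𝔞 𝔪 (e.comp ι) := by
  let f : M' ≃ₗ[B] M'' := LinearEquiv.ofBijective
    { toFun := e, map_add' := map_add e, map_smul' := he } hb
  have hf : ∀ x, f x = e x := fun x => rfl
  have key : ∀ (j : ℕ) (x : M'), f x ∈ (𝔪 ^ j • ⊤ : Submodule B M'') ↔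
      x ∈ (𝔪 ^ j • ⊤ : Submodule B M') := by
    intro j x
    have h1 : (𝔪 ^ j • ⊤ : Submodule B M'') = (𝔪 ^ j • ⊤ : Submodule B M').map f.toLinearMap := by
      rw [Submodule.map_smul'', Submodule.map_top, LinearMap.range_eq_top.2 f.surjective]
    rw [h1]
    constructor
    · rintro ⟨y, hy, hxy⟩
      have : y = x := f.injective hxy
      rwa [← this]
    · intro hx
      exact ⟨x, hx, rfl⟩
  refine ⟨fun a x => ?_, fun j x'' => ?_, fun j => ?_⟩
  · change e (ι (a • x)) = φ a • e (ι x)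
    rw [hι.lin, he]
  · obtain ⟨x', rfl⟩ := f.surjective x''
    obtain ⟨x, hx⟩ := hι.dense j x'
    refine ⟨x, ?_⟩
    change f x' - f (ι x) ∈ _
    rw [← map_sub, key]
    exact hx
  · obtain ⟨N, hN⟩ := hι.top j
    refine ⟨N, fun x hx => hN x ?_⟩
    rw [← key]
    exact hx

/-- the two rings have the same completions at the ideals `Jd d` -/
def SameC (B B' : Type) [CommRing B] [CommRing B'] : Prop :=
  ∀ d : ℕ, ∃ (R : Type) (_ : CommRing R) (φ : B →+* R) (φ' : B' →+* R),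
    Comp φ (Jd d B) ∧ Comp φ' (Jd d B') ∧ (Jd d B).map φ = (Jd d B').map φ'

/-- `p = 2`: the polynomial of the smallest stable ideal depends only on the completions -/
theorem P_mn {B B' : Type} [CommRing B] [CommRing B'] [Algebra (ZMod 2) B] [Algebra (ZMod 2) B']
    [Algebra.FiniteType (ZMod 2) B] [Algebra.FiniteType (ZMod 2) B'] [IsDomain B] [IsDomain B']
    {κ : B → B} {κ' : B' → B'} (h : PL 2 κ) (h' : PL 2 κ') {c : B} {c' : B'} {n n' : ℕ}
    {a b : Fin n → B} {a' b' : Fin n' → B'} (hd : DB 2 κ c a b) (hd' : DB 2 κ' c' a' b')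
    (hc : c ≠ 0) (hc' : c' ≠ 0) (hs : SameC B B') :
    (iC h (mn κ (c ^ 3)) (mn_st _)).P = (iC h' (mn κ' (c' ^ 3)) (mn_st _)).P := by
  have hnB : IsNoetherianRing B := noeth (p := 2)
  have hnB' : IsNoetherianRing B' := noeth (p := 2)
  refine SuInd.P_cmp (iC h (mn κ (c ^ 3)) (mn_st _)) (iC h' (mn κ' (c' ^ 3)) (mn_st _))
    (show Module.Finite B (mn κ (c ^ 3)) from inferInstance)
    (show Module.Finite B' (mn κ' (c' ^ 3)) from inferInstance) fun d => ?_
  obtain ⟨R, hR, φ, φ', hφ, hφ', hJ⟩ := hs d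
  have hnR := hφ.noeth
  obtain ⟨lam, hl, hle⟩ := ext hφ h
  obtain ⟨lam', hl', hle'⟩ := ext hφ' h'
  have hD := DB_ext hφ hl hle hd
  have hD' := DB_ext hφ' hl' hle' hd'
  let alg : Algebra (ZMod 2) R := (φ.comp (algebraMap (ZMod 2) B)).toAlgebra
  have hcR : φ c ∈ nonZeroDivisors R := Comp.nzd hφ hc
  have hcR' : φ' c' ∈ nonZeroDivisors R := Comp.nzd hφ' hc'
  obtain ⟨g, g', hg, _, hgg⟩ := can hl hl' hD hD' hcR
  obtain ⟨e, he, _, hel, hee⟩ := mn_iso hl hl' hD hD' hcR hcR' hg hgg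
  have p1 := mn_pro hφ hl hle (c ^ 3)
  have p2 := mn_pro hφ' hl' hle' (c' ^ 3)
  rw [map_pow φ c 3] at p1
  rw [map_pow φ' c' 3] at p2
  obtain ⟨ι, hι, hιp⟩ := p1
  obtain ⟨ι', hι', hιp'⟩ := p2
  rw [← hJ] at hιp'
  have hfin : Finite (R ⧸ (Jd d B).map φ) := by
    have h1 : Finite (B ⧸ Jd d B) := SuInd.finite_JJ (p := 2) d
    refine Finite.of_surjective (Ideal.quotientMap ((Jd d B).map φ) φ Ideal.le_comap_map) ?_
    intro y
    obtain ⟨y, rfl⟩ := Ideal.Quotient.mk_surjective y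
    obtain ⟨b, hb⟩ := hφ.dense 1 y
    rw [pow_one] at hb
    refine ⟨Ideal.Quotient.mk _ b, ?_⟩
    rw [Ideal.quotientMap_mk]
    exact (Ideal.Quotient.mk_eq_mk_iff_sub_mem y (φ b)).2 hb |>.symm
  refine ⟨R, hR, alg, hnR, φ, φ', (Jd d B).map φ, iC hl' (mn lam' (φ' c' ^ 3)) (mn_st _),
    e.comp ι, ι', rfl, hJ.symm, hfin,
    (show Module.Finite R (mn lam' (φ' c' ^ 3)) from inferInstance),
    pro_comp hιp e hel he, hιp', fun x => ?_, fun x => ?_⟩
  · refine Subtype.ext ?_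
    refine hee (ι x) (ι ⟨κ x.1, mn_st _ _ x.2⟩) ?_
    exact (hι _).trans ((hle x.1).symm.trans (congrArg lam (hι x).symm))
  · refine Subtype.ext ?_
    change (ι' ⟨κ' x.1, mn_st _ _ x.2⟩ : R) = lam' (ι' x : R)
    exact (hι' _).trans ((hle' x.1).symm.trans (congrArg lam' (hι' x).symm))

end Pool.Agent.SuMin
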