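import Pool.Agent.Lib.MP_305fdd_al.Su.Min.E
import Pool.Agent.Lib.MP_305fdd_al.F2.RF.Main

/-!
# MP_305fdd_al, surface groups, block MIN, part F: subalgebras of fields

For a finitely generated subalgebra `B` of a field `K` (with field of fractions `K`) and a map `Φ` of log
type, a scalar multiple `κ = z Φ (z⁻¹ ·)` maps `B` to `B` and satisfies the identity `DB`.  Main results:
`exists_om` (the smallest stable submodule), `PF_om` (its polynomial depends only on the completions).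
-/

set_option autoImplicit false

namespace Pool.Agent.SuMin

open Pool.Agent.SuTR (Comp Jd)
open Pool.Agent.FrN Pool.Agent.FrNE Pool.Agent.FrNA Pool.Agent.F2Ch Pool.Agent.F2RF

section

variable {p : ℕ} {K : Type} [Field K] [Algebra (ZMod p) K] {B : Subalgebra (ZMod p) K}

/-- common denominators -/
theorem den (hB : Frc B) {ι : Type} (G : Finset ι) (z : ι → K) :
    ∃ δ : K, δ ∈ B ∧ δ ≠ 0 ∧ ∀ g ∈ G, δ * z g ∈ B := by
  classical
  induction G using Finset.induction_on with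
  | empty => exact ⟨1, B.one_mem, one_ne_zero, fun g hg => absurd hg (Finset.notMem_empty g)⟩
  | insert i G hi ih =>
    obtain ⟨δ, hδ, hδ0, h⟩ := ih
    obtain ⟨a, ha, b, hb, hb0, hab⟩ := hB (z i)
    refine ⟨δ * b, B.mul_mem hδ hb, mul_ne_zero hδ0 hb0, fun g hg => ?_⟩
    rcases Finset.mem_insert.1 hg with rfl | hg
    · have : δ * b * z g = δ * a := by rw [← hab]; ring
      rw [this]
      exact B.mul_mem hδ ha
    · have : δ * b * z g = b * (δ * z g) := by ring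
      rw [this]
      exact B.mul_mem hb (h g hg)

/-- a denominator of a finitely generated module -/
theorem den_fg (hB : Frc B) (M : Submodule B K) (hM : M.FG) :
    ∃ δ : K, δ ∈ B ∧ δ ≠ 0 ∧ ∀ x ∈ M, δ * x ∈ B := by
  obtain ⟨S, rfl⟩ := hM
  obtain ⟨δ, hδ, hδ0, h⟩ := den hB S (fun x : K => x)
  refine ⟨δ, hδ, hδ0, fun x hx => ?_⟩
  induction hx using Submodule.span_induction with
  | mem x hx => exact h x hx
  | zero => rw [mul_zero]; exact B.zero_mem
  | add x y _ _ hx hy => rw [mul_add]; exact B.add_mem hx hy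
  | smul c x _ hx =>
    have : δ * c • x = (c : K) * (δ * x) := by
      change δ * ((c : K) * x) = _
      ring
    rw [this]
    exact B.mul_mem c.2 hx

/-- a map of `B` which satisfies the identity `DB` -/
theorem exists_kappa [Fact p.Prime] (hB : B.FG) (hF : Frc B) {Φ : K → K} (hΦ : LogTy p Φ)
    (h : IsPinv p Φ) : ∃ (z : K) (κ : B → B), z ∈ B ∧ z ≠ 0 ∧ PL p κ ∧
      (∀ b : B, (κ b : K) = z * Φ (z⁻¹ * b)) ∧
      ∃ (c : B) (n : ℕ) (a b : Fin n → B), c ≠ 0 ∧ DB p κ c a b := by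
  have hp := (Fact.out : p.Prime)
  have : CharP K p := charP_of_injective_algebraMap (algebraMap (ZMod p) K).injective p
  obtain ⟨M, hM⟩ := t_hull p K B hB hF Φ h 1
  obtain ⟨s, hs, hs0, hsM⟩ := den_fg hF M hM.fg
  have hΦB : ∀ b ∈ B, s * Φ b ∈ B := by
    intro b hb
    refine hsM _ (hM.stb _ ?_)
    have h1 := M.smul_mem (⟨b, hb⟩ : B) hM.mem
    have h2 : (⟨b, hb⟩ : B) • (1 : K) = b := mul_one b
    rwa [h2] at h1
  have hk : ∀ b : K, s ^ p * Φ ((s ^ p)⁻¹ * b) = s ^ (p - 1) * Φ b := by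
    intro b
    rw [← inv_pow, h.pow_mul]
    have h2 : s ^ p = s ^ (p - 1) * s := by rw [← pow_succ, Nat.sub_add_cancel hp.one_le]
    rw [h2]
    field_simp
  have hkB : ∀ b ∈ B, s ^ (p - 1) * Φ b ∈ B := by
    intro b hb
    have h2 : s ^ (p - 1) * Φ b = s ^ (p - 2) * (s * Φ b) := by
      rw [← mul_assoc, ← pow_succ]
      congr 2
      have := hp.two_le
      omega
    rw [h2]
    exact B.mul_mem (B.pow_mem hs _) (hΦB b hb)
  let κ : B → B := fun b => ⟨s ^ (p - 1) * Φ b, hkB b.1 b.2⟩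
  have hκ : ∀ b : B, (κ b : K) = s ^ (p - 1) * Φ b := fun b => rfl
  refine ⟨s ^ p, κ, B.pow_mem hs p, pow_ne_zero p hs0, ⟨fun x y => Subtype.ext ?_,
    fun x y => Subtype.ext ?_⟩, fun b => by rw [hκ, hk], ?_⟩
  · change s ^ (p - 1) * Φ (x.1 + y.1) = s ^ (p - 1) * Φ x.1 + s ^ (p - 1) * Φ y.1
    rw [h.add, mul_add]
  · change s ^ (p - 1) * Φ (x.1 ^ p * y.1) = x.1 * (s ^ (p - 1) * Φ y.1)
    rw [h.pow_mul]
    ring
  -- dual bases
  obtain ⟨d, t, π, g, hMB, hg, hφ⟩ := hΦ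
  have hπ : ∀ (α : Fin d → Fin p) (f : K), π α f = g * Φ (g⁻¹ * (monY (p := p) t α)⁻¹ * f) := by
    intro α f
    rw [(w7 p K d t π hMB).1 α f, hφ, ← mul_assoc g g⁻¹, mul_inv_cancel₀ hg, one_mul]
    congr 1
    rw [← mul_assoc, ← mul_assoc, mul_inv_cancel₀ hg, one_mul]
  obtain ⟨e₁, he₁, he₁0, h₁⟩ := den hF (Finset.univ : Finset (Fin d → Fin p))
    (fun α => g⁻¹ * (monY (p := p) t α)⁻¹)
  obtain ⟨e₂, he₂, he₂0, h₂⟩ := den hF (Finset.univ : Finset (Fin d → Fin p))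
    (fun α => g ^ p * monY (p := p) t α)
  set e := e₁ * e₂ with he
  have heB : e ∈ B := B.mul_mem he₁ he₂
  have he0 : e ≠ 0 := mul_ne_zero he₁0 he₂0
  have hA : ∀ α : Fin d → Fin p, e * (g⁻¹ * (monY (p := p) t α)⁻¹) ∈ B := by
    intro α
    have : e * (g⁻¹ * (monY (p := p) t α)⁻¹) =
        e₂ * (e₁ * (g⁻¹ * (monY (p := p) t α)⁻¹)) := by rw [he]; ring
    rw [this]
    exact B.mul_mem he₂ (h₁ α (Finset.mem_univ _))
  have hC : ∀ α : Fin d → Fin p, e * (g ^ p * monY (p := p) t α) ∈ B := by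
    intro α
    have : e * (g ^ p * monY (p := p) t α) = e₁ * (e₂ * (g ^ p * monY (p := p) t α)) := by
      rw [he]; ring
    rw [this]
    exact B.mul_mem he₁ (h₂ α (Finset.mem_univ _))
  let E := Fintype.equivFin (Fin d → Fin p)
  refine ⟨⟨e ^ (p + 1) * s ^ ((p - 1) * p), B.mul_mem (B.pow_mem heB _) (B.pow_mem hs _)⟩, _,
    fun i => ⟨e ^ (p - 1) * (e * (g⁻¹ * (monY (p := p) t (E.symm i))⁻¹)),
      B.mul_mem (B.pow_mem heB _) (hA _)⟩,
    fun i => ⟨e * (g ^ p * monY (p := p) t (E.symm i)), hC _⟩, ?_, fun x => Subtype.ext ?_⟩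
  · intro h0
    have h1 := congrArg Subtype.val h0
    exact mul_ne_zero (pow_ne_zero (p + 1) he0) (pow_ne_zero ((p - 1) * p) hs0) h1
  · have h3 : ((∑ i, κ (⟨e ^ (p - 1) * (e * (g⁻¹ * (monY (p := p) t (E.symm i))⁻¹)),
        B.mul_mem (B.pow_mem heB _) (hA _)⟩ * x) ^ p *
        ⟨e * (g ^ p * monY (p := p) t (E.symm i)), hC _⟩ : B) : K) =
        ∑ i, (s ^ (p - 1) * Φ (e ^ (p - 1) * (e * (g⁻¹ * (monY (p := p) t (E.symm i))⁻¹)) * x)) ^ p *
          (e * (g ^ p * monY (p := p) t (E.symm i))) := by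
      rw [AddSubmonoidClass.coe_finsetSum]
      rfl
    rw [h3, Equiv.sum_comp E.symm (fun α =>
      (s ^ (p - 1) * Φ (e ^ (p - 1) * (e * (g⁻¹ * (monY (p := p) t α)⁻¹)) * x)) ^ p *
          (e * (g ^ p * monY (p := p) t α)))]
    change e ^ (p + 1) * s ^ ((p - 1) * p) * (x : K) = _
    conv_lhs => rw [← hMB.pb.repr (x : K)]
    rw [Finset.mul_sum]
    refine Finset.sum_congr rfl fun α _ => ?_
    have h4 : e ^ (p - 1) * (e * (g⁻¹ * (monY (p := p) t α)⁻¹)) * (x : K) =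
        e ^ p * (g⁻¹ * (monY (p := p) t α)⁻¹ * x) := by
      have h2 : e ^ p = e ^ (p - 1) * e := by rw [← pow_succ, Nat.sub_add_cancel hp.one_le]
      rw [h2]
      ring
    rw [h4, h.pow_mul, hπ α x, mul_pow, mul_pow, mul_pow, ← pow_mul]
    ring

end

end Pool.Agent.SuMin
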