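import Pool.Agent.Lib.MP_305fdd_al.Su.Min.F

/-!
# MP_305fdd_al, surface groups, block MIN, part G: the smallest stable submodule

Main results: `exists_om` (existence and finite generation of the smallest nonzero stable submodule of
`K`), `PF_om` (`p = 2`: its polynomial depends only on the completions of `B`), `nil_om` (nilpotence is
transferred).
-/

set_option autoImplicit false

namespace Pool.Agent.SuMin

open Pool.Agent.SuTR (Comp Jd)
open Pool.Agent.FrN Pool.Agent.FrNE Pool.Agent.FrNA Pool.Agent.F2Ch Pool.Agent.F2RF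

section

variable {p : ℕ} {K : Type} [Field K] [Algebra (ZMod p) K] {B : Subalgebra (ZMod p) K}

/-- the map `b ↦ z⁻¹ b` -/
def mz (B : Subalgebra (ZMod p) K) (z : K) : B →ₗ[B] K where
  toFun b := z⁻¹ * b
  map_add' x y := by
    change z⁻¹ * (x.1 + y.1) = _
    rw [mul_add]
  map_smul' c x := by
    change z⁻¹ * (c.1 * x.1) = c.1 * (z⁻¹ * x.1)
    ring

theorem mz_apply (z : K) (b : B) : mz B z b = z⁻¹ * b := rfl

/-- the smallest nonzero stable submodule, with its relation to `mn` -/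
theorem om_mn [Fact p.Prime] (hB : B.FG) (hF : Frc B) {Φ : K → K} (h : IsPinv p Φ) {z : K}
    (hz : z ≠ 0) {κ : B → B} (hκ : PL p κ) (hκΦ : ∀ b : B, (κ b : K) = z * Φ (z⁻¹ * b)) {c : B}
    {n : ℕ} {a b : Fin n → B} (hc : c ≠ 0) (hd : DB p κ c a b) :
    IsOm B Φ (Submodule.map (mz B z) (mn κ (c ^ 3))) ∧ (Submodule.map (mz B z) (mn κ (c ^ 3))).FG ∧
      ∀ hM : Stb Φ (Submodule.map (mz B z) (mn κ (c ^ 3))),
      (toC h (Submodule.map (mz B z) (mn κ (c ^ 3))) hM).P = (iC hκ (mn κ (c ^ 3)) (mn_st _)).P := by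
  have hft := ft_of_fg hB
  have hn : IsNoetherianRing B := noeth (p := p)
  have hst : ∀ b : B, Φ (z⁻¹ * b) = z⁻¹ * (κ b : K) := by
    intro b
    rw [hκΦ, ← mul_assoc, inv_mul_cancel₀ hz, one_mul]
  refine ⟨⟨?_, ?_, ?_⟩, ?_, fun hM => ?_⟩
  · intro h0
    have h1 : mz B z (c ^ 3) ∈ Submodule.map (mz B z) (mn κ (c ^ 3)) := Submodule.mem_map_of_mem (mem_mn _)
    rw [h0, Submodule.mem_bot, mz_apply] at h1
    rcases mul_eq_zero.1 h1 with h2 | h2
    · exact hz (inv_eq_zero.1 h2)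
    · exact pow_ne_zero 3 hc (Subtype.ext h2)
  · rintro _ ⟨x, hx, rfl⟩
    exact ⟨κ x, mn_st _ _ hx, by rw [mz_apply, mz_apply, hst]⟩
  · intro Q hQ hQs
    rw [Submodule.map_le_iff_le_comap]
    obtain ⟨q, hq, hq0⟩ := Submodule.exists_mem_ne_zero_of_ne_bot hQ
    obtain ⟨u, hu, v, hv, hv0, huv⟩ := hF (z * q)
    have hu0 : u ≠ 0 := by
      rw [← huv]
      exact mul_ne_zero (mul_ne_zero hz hq0) hv0
    refine mn_min hκ hd (N := Q.comap (mz B z)) ?_ (f := (⟨u, hu⟩ : B)) ?_ ?_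
    · intro x hx
      rw [Submodule.mem_comap, mz_apply] at hx ⊢
      rw [← hst]
      exact hQs _ hx
    · rw [Submodule.mem_comap, mz_apply]
      have h1 := Q.smul_mem (⟨v, hv⟩ : B) hq
      have h2 : z⁻¹ * u = (⟨v, hv⟩ : B) • q := by
        change _ = v * q
        rw [← huv]
        field_simp
      change z⁻¹ * u ∈ Q
      rw [h2]
      exact h1
    · exact mem_nonZeroDivisors_of_ne_zero fun h0 => hu0 (congrArg Subtype.val h0)
  · exact Submodule.FG.map _ (IsNoetherian.noetherian _)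
  · refine (SuInd.P_bij (iC hκ (mn κ (c ^ 3)) (mn_st _))
      (toC h (Submodule.map (mz B z) (mn κ (c ^ 3))) hM)
      { toFun := fun x => ⟨mz B z x.1, Submodule.mem_map_of_mem x.2⟩
        map_zero' := Subtype.ext (map_zero (mz B z))
        map_add' := fun x y => Subtype.ext (map_add (mz B z) x.1 y.1) } ?_ ⟨?_, ?_⟩).symm
    · intro x
      refine Subtype.ext ?_
      change z⁻¹ * (κ x.1 : K) = Φ (z⁻¹ * x.1)
      rw [hst]
    · intro x y hxy
      have h1 : z⁻¹ * (x.1 : K) = z⁻¹ * (y.1 : K) := congrArg Subtype.val hxy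
      exact Subtype.ext (Subtype.ext (mul_left_cancel₀ (inv_ne_zero hz) h1))
    · rintro ⟨_, x, hx, rfl⟩
      exact ⟨⟨x, hx⟩, rfl⟩

/-- existence of the smallest nonzero stable submodule -/
theorem exists_om [Fact p.Prime] (hB : B.FG) (hF : Frc B) {Φ : K → K} (hΦ : LogTy p Φ)
    (h : IsPinv p Φ) : ∃ M : Submodule B K, IsOm B Φ M ∧ M.FG := by
  obtain ⟨z, κ, _, hz, hκ, hκΦ, c, n, a, b, hc, hd⟩ := exists_kappa hB hF hΦ h
  obtain ⟨h1, h2, _⟩ := om_mn hB hF h hz hκ hκΦ hc hd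
  exact ⟨_, h1, h2⟩

theorem IsOm.eq {Φ : K → K} {M M' : Submodule B K} (h : IsOm B Φ M) (h' : IsOm B Φ M') :
    M = M' := le_antisymm (h.min M' h'.ne h'.stb) (h'.min M h.ne h.stb)

end

/-- `PF` of a finitely generated stable submodule -/
theorem PF_toC {p : ℕ} [Fact p.Prime] {K : Type} [Field K] [Algebra (ZMod p) K]
    {B : Subalgebra (ZMod p) K} (hB : B.FG) {Φ : K → K} (h : IsPinv p Φ) (M : Submodule B K)
    (hM : Stb Φ M) (hfg : M.FG) : PF h M = (toC h M hM).P :=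
  KF_eq hB h M hM hfg [] (fun _ hy => absurd hy (List.not_mem_nil))

/-- `p = 2`: the polynomial of the smallest nonzero stable submodule depends only on the completions
of `B` -/
theorem PF_om {K K' : Type} [Field K] [Field K'] [Algebra (ZMod 2) K] [Algebra (ZMod 2) K']
    {B : Subalgebra (ZMod 2) K} {B' : Subalgebra (ZMod 2) K'} (hB : B.FG) (hF : Frc B)
    (hB' : B'.FG) (hF' : Frc B') {Φ : K → K} {Φ' : K' → K'} (hΦ : LogTy 2 Φ) (hΦ' : LogTy 2 Φ')
    (h : IsPinv 2 Φ) (h' : IsPinv 2 Φ') (hs : SameC B B') {M : Submodule B K}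
    {M' : Submodule B' K'} (hM : IsOm B Φ M) (hM' : IsOm B' Φ' M') : PF h M = PF h' M' := by
  have hft := ft_of_fg hB
  have hft' := ft_of_fg hB'
  obtain ⟨z, κ, _, hz, hκ, hκΦ, c, n, a, b, hc, hd⟩ := exists_kappa hB hF hΦ h
  obtain ⟨z', κ', _, hz', hκ', hκΦ', c', n', a', b', hc', hd'⟩ := exists_kappa hB' hF' hΦ' h'
  obtain ⟨h1, h2, h3⟩ := om_mn hB hF h hz hκ hκΦ hc hd
  obtain ⟨h1', h2', h3'⟩ := om_mn hB' hF' h' hz' hκ' hκΦ' hc' hd'
  rw [IsOm.eq hM h1, IsOm.eq hM' h1', PF_toC hB h _ h1.stb h2, PF_toC hB' h' _ h1'.stb h2',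
    h3 h1.stb, h3' h1'.stb]
  exact P_mn hκ hκ' hd hd' hc hc' hs

/-- `p = 2`: nilpotence on the smallest nonzero stable submodule is transferred to a ring with the same
completions -/
theorem nil_om {K K' : Type} [Field K] [Field K'] [Algebra (ZMod 2) K] [Algebra (ZMod 2) K']
    {B : Subalgebra (ZMod 2) K} {B' : Subalgebra (ZMod 2) K'} (hB : B.FG) (hF : Frc B)
    (hB' : B'.FG) (hF' : Frc B') {Φ : K → K} {Φ' : K' → K'} (hΦ : LogTy 2 Φ) (hΦ' : LogTy 2 Φ')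
    (h : IsPinv 2 Φ) (h' : IsPinv 2 Φ') (hs : SameC B B')
    (hnil : ∃ M' : Submodule B' K', M' ≠ ⊥ ∧ Stb Φ' M' ∧ ∀ x ∈ M', ∃ e : ℕ, Φ'^[e] x = 0) :
    ∃ M : Submodule B K, IsOm B Φ M ∧ M.FG ∧ ∀ x ∈ M, ∃ e : ℕ, Φ^[e] x = 0 := by
  obtain ⟨M, hM, hMfg⟩ := exists_om hB hF hΦ h
  obtain ⟨M', hM', hMfg'⟩ := exists_om hB' hF' hΦ' h'
  refine ⟨M, hM, hMfg, ?_⟩
  have hP := PF_om hB hF hB' hF' hΦ hΦ' h h' hs hM hM'
  have it : ∀ {L : Type} [Field L] [Algebra (ZMod 2) L] {Ψ : L → L} (g : IsPinv 2 Ψ) (e : ℕ)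
      (x : L), (toEnd g ^ e) x = Ψ^[e] x := by
    intro L _ _ Ψ g e x
    induction e with
    | zero => rfl
    | succ e ih =>
      rw [pow_succ', Module.End.mul_apply, ih, Function.iterate_succ_apply']
      rfl
  have nuc : ∀ {L : Type} [Field L] [Algebra (ZMod 2) L] {A : Subalgebra (ZMod 2) L}
      (hA : A.FG) {Ψ : L → L} (g : IsPinv 2 Ψ) (N : Submodule A L), Stb Ψ N → N.FG →
      ∃ W, Nuc (toEnd g) (N.restrictScalars (ZMod 2)) W := by
    intro L _ _ A hA Ψ g N hN hNfg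
    have h1 := t_nucf 2 L A hA Ψ g N hN hNfg 1 one_ne_zero
    rwa [loc_one'] at h1
  have h1 : PV (toEnd h') (M'.restrictScalars (ZMod 2)) = 1 := by
    refine (t_nil _ _ (toEnd h') _ (nuc hB' h' M' hM'.stb hMfg')).1 fun v hv => ?_
    obtain ⟨N', hN0, hNs, hNn⟩ := hnil
    obtain ⟨e, he⟩ := hNn v (hM'.min N' hN0 hNs hv)
    exact ⟨e, by rw [it]; exact he⟩
  intro x hx
  obtain ⟨e, he⟩ := (t_nil _ _ (toEnd h) (M.restrictScalars (ZMod 2))
    (nuc hB h M hM.stb hMfg)).2 (by rw [← h1]; exact hP) x hx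
  exact ⟨e, by rw [← it h]; exact he⟩

end Pool.Agent.SuMin
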