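import Pool.Agent.Lib.MP_305fdd_al.Su.Min.G

/-!
# MP_305fdd_al, surface groups, block MIN, part L: the total ring of fractions of the completion

`L` is the total ring of fractions of `R`, `φ : B → R` the completion, `B` a subalgebra of the field `K`.
`exists_L`: `jK : K → L` and the extension `ΦL` of `Φ`.  `om_min_L`: `R M` is the smallest stable
submodule of `L` which contains a unit.  `exists_unit` (`p = 2`): the extensions of the maps of two
rings `B`, `B'` with the same completion `R` are conjugate by a unit of `L`.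
-/

set_option autoImplicit false

namespace Pool.Agent.SuMin

open Pool.Agent.SuTR (Comp Jd)
open Pool.Agent.FrN Pool.Agent.FrNE Pool.Agent.FrNA Pool.Agent.F2Ch Pool.Agent.F2RF

section frac

variable {p : ℕ} {R L : Type} [CommRing R] [CommRing L] [Algebra R L] [IsFractionRing R L]
  {κ : R → R}

/-- extension to the total ring of fractions -/
theorem frac_ext [Fact p.Prime] (h : PL p κ) :
    ∃ κL : L → L, PL p κL ∧ ∀ x, κL (algebraMap R L x) = algebraMap R L (κ x) := by
  have hp := (Fact.out : p.Prime)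
  have hpp : ∀ s : R, s ^ p = s ^ (p - 1) * s := fun s => by
    rw [← pow_succ, Nat.sub_add_cancel hp.one_le]
  choose N D hND using fun y : L => IsLocalization.exists_mk'_eq (nonZeroDivisors R) y
  let f : L → L := fun y => IsLocalization.mk' L (κ (N y * (D y : R) ^ (p - 1))) (D y)
  have key : ∀ (x : R) (s : nonZeroDivisors R),
      f (IsLocalization.mk' L x s) = IsLocalization.mk' L (κ (x * (s : R) ^ (p - 1))) s := by
    intro x s
    set y := IsLocalization.mk' L x s with hy
    have h1 : IsLocalization.mk' L (N y) (D y) = IsLocalization.mk' L x s := hND y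
    rw [IsLocalization.mk'_eq_iff_eq] at h1
    have h2 := IsFractionRing.injective R L h1
    change IsLocalization.mk' L (κ (N y * (D y : R) ^ (p - 1))) (D y) = _
    rw [IsLocalization.mk'_eq_iff_eq]
    congr 1
    rw [← h.pow_mul, ← h.pow_mul]
    congr 1
    have h3 : (D y : R) * x = s * N y := h2.symm
    calc (s : R) ^ p * (N y * (D y : R) ^ (p - 1))
        = (s : R) ^ (p - 1) * (D y : R) ^ (p - 1) * (s * N y) := by rw [hpp]; ring
      _ = (s : R) ^ (p - 1) * (D y : R) ^ (p - 1) * ((D y : R) * x) := by rw [h3]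
      _ = (D y : R) ^ p * (x * (s : R) ^ (p - 1)) := by rw [hpp (D y : R)]; ring
  refine ⟨f, ⟨fun y y' => ?_, fun a y => ?_⟩, fun x => ?_⟩
  · obtain ⟨x, s, rfl⟩ := IsLocalization.exists_mk'_eq (nonZeroDivisors R) y
    obtain ⟨x', s', rfl⟩ := IsLocalization.exists_mk'_eq (nonZeroDivisors R) y'
    rw [← IsLocalization.mk'_add, key, key, key, ← IsLocalization.mk'_add]
    congr 1
    have e : (x * (s' : R) + x' * (s : R)) * ((s * s' : nonZeroDivisors R) : R) ^ (p - 1) =
        (s' : R) ^ p * (x * (s : R) ^ (p - 1)) + (s : R) ^ p * (x' * (s' : R) ^ (p - 1)) := by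
      rw [Submonoid.coe_mul, hpp, hpp]
      ring
    rw [e, h.add, h.pow_mul, h.pow_mul]
    ring
  · obtain ⟨x, s, rfl⟩ := IsLocalization.exists_mk'_eq (nonZeroDivisors R) y
    obtain ⟨b, t, rfl⟩ := IsLocalization.exists_mk'_eq (nonZeroDivisors R) a
    rw [← IsLocalization.mk'_pow, ← IsLocalization.mk'_mul, key, key, ← IsLocalization.mk'_mul,
      IsLocalization.mk'_eq_iff_eq]
    congr 1
    have e : b ^ p * x * (((t ^ p * s : nonZeroDivisors R) : R)) ^ (p - 1) =
        (b * (t : R) ^ (p - 1)) ^ p * (x * (s : R) ^ (p - 1)) := by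
      rw [Submonoid.coe_mul, SubmonoidClass.coe_pow]
      ring
    rw [e, h.pow_mul, Submonoid.coe_mul, Submonoid.coe_mul, SubmonoidClass.coe_pow, hpp (t : R)]
    ring
  · have h1 := key x 1
    rw [IsLocalization.mk'_one, OneMemClass.coe_one, one_pow, mul_one, IsLocalization.mk'_one] at h1
    exact h1

end frac

section jac

variable {B R : Type} [CommRing B] [CommRing R] {φ : B →+* R} {J : Ideal B}

/-- completeness for sequences in `R` -/
theorem Comp.lim (hc : Comp φ J) (t : ℕ → R) (ht : ∀ n, t (n + 1) - t n ∈ (J.map φ) ^ n) :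
    ∃ y : R, ∀ n, y - t n ∈ (J.map φ) ^ n := by
  choose b hb using fun n => hc.dense n (t n)
  obtain ⟨y, hy⟩ := hc.cpl b fun n => by
    refine hc.top n _ ?_
    have h1 := Submodule.sub_mem _ (Submodule.add_mem _ (ht n) (hb n))
      (Ideal.pow_le_pow_right (Nat.le_succ n) (hb (n + 1)))
    have e : t (n + 1) - t n + (t n - φ (b n)) - (t (n + 1) - φ (b (n + 1))) =
        φ (b (n + 1) - b n) := by rw [map_sub]; ring
    rwa [e] at h1
  refine ⟨y, fun n => ?_⟩
  have h1 := Submodule.sub_mem _ (hy n) (hb n)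
  have e : y - φ (b n) - (t n - φ (b n)) = y - t n := by ring
  rwa [e] at h1

theorem Comp.isUnit (hc : Comp φ J) {x : R} (hx : x ∈ J.map φ) : IsUnit (1 - x) := by
  obtain ⟨y, hy⟩ := Comp.lim hc (fun n => ∑ i ∈ Finset.range n, x ^ i) fun n => by
    rw [Finset.sum_range_succ, add_sub_cancel_left]
    exact Ideal.pow_mem_pow hx n
  refine IsUnit.of_mul_eq_one y (Comp.eq hc fun n => ?_)
  have h1 : (1 - x) * ∑ i ∈ Finset.range n, x ^ i = 1 - x ^ n := mul_neg_geom_sum x n
  have h2 : (1 - x) * y - 1 = (1 - x) * (y - ∑ i ∈ Finset.range n, x ^ i) - x ^ n := by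
    rw [mul_sub, h1]
    ring
  rw [h2]
  exact Submodule.sub_mem _ (Ideal.mul_mem_left _ _ (hy n)) (Ideal.pow_mem_pow hx n)

theorem Comp.le_jac (hc : Comp φ J) : J.map φ ≤ Ideal.jacobson ⊥ := by
  intro x hx
  rw [Ideal.mem_jacobson_bot]
  intro y
  have h1 := Comp.isUnit hc (x := -(x * y)) (Submodule.neg_mem _ (Ideal.mul_mem_right y _ hx))
  have e : 1 - -(x * y) = x * y + 1 := by ring
  rwa [e] at h1

/-- the hull over `R` is generated by the hull over `B` -/
theorem mn_eq_map {p : ℕ} [Fact p.Prime] {κ : B → B} {κ' : R → R} (hc : Comp φ J)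
    (h' : PL p κ') (hκ : ∀ b, κ' (φ b) = φ (κ b)) (c : B) :
    (mn κ c).map φ = mn κ' (φ c) := by
  have := hc.noeth
  refine le_antisymm ?_ ?_
  · rw [Ideal.map_le_iff_le_comap]
    intro x hx
    exact mn_map hκ c x hx
  · refine Submodule.le_of_le_smul_of_le_jacobson_bot (IsNoetherian.noetherian _)
      (Comp.le_jac hc) ?_
    intro y hy
    obtain ⟨x, hx, hxy⟩ := mn_dense hc h' hκ c 1 y hy
    rw [pow_one] at hxy
    have e : y = φ x + (y - φ x) := by ring
    rw [e]
    exact Submodule.add_mem_sup (Ideal.mem_map_of_mem φ hx) hxy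

end jac

section field

variable {p : ℕ} [Fact p.Prime] {K : Type} [Field K] [Algebra (ZMod p) K]
  {B : Subalgebra (ZMod p) K} {R L : Type} [CommRing R] [CommRing L] [Algebra R L]
  [IsFractionRing R L] {φ : B →+* R} {J : Ideal B}

/-- the map of the field of fractions of `B` to the total ring of fractions of `R` -/
theorem exists_jK (hF : Frc B) (hc : Comp φ J) :
    ∃ jK : K →+* L, ∀ b : B, jK b = algebraMap R L (φ b) := by
  have hfr : IsFractionRing B K := by
    refine IsFractionRing.of_field B K fun z => ?_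
    obtain ⟨a, ha, b, hb, hb0, hab⟩ := hF z
    refine ⟨⟨a, ha⟩, ⟨b, hb⟩, ?_⟩
    change z = a / b
    rw [← hab]
    field_simp
  have hu : ∀ y : nonZeroDivisors B, IsUnit (((algebraMap R L).comp φ) y) := by
    intro y
    have h1 : φ y ∈ nonZeroDivisors R := Comp.nzd hc (nonZeroDivisors.ne_zero y.2)
    exact IsLocalization.map_units L (⟨φ y, h1⟩ : nonZeroDivisors R)
  refine ⟨IsLocalization.lift (M := nonZeroDivisors B) hu, fun b => ?_⟩
  exact IsLocalization.lift_eq hu b

/-- the extension of `Φ` to `L`, with its relation to `κ`, and the dual bases over `L` -/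
theorem exists_L (hB : B.FG) (hF : Frc B) (hc : Comp φ J) {Φ : K → K} (hΦ : LogTy p Φ)
    (h : IsPinv p Φ) (jK : K →+* L) (hj : ∀ b : B, jK b = algebraMap R L (φ b)) :
    ∃ ΦL : L → L, PL p ΦL ∧ (∀ x, ΦL (jK x) = jK (Φ x)) ∧
      (∃ (C : L) (n : ℕ) (a b : Fin n → L), IsUnit C ∧ DB p ΦL C a b) ∧
      ∀ M : Submodule B K, IsOm B Φ M →
        (∀ y ∈ Submodule.span R (jK '' M), ΦL y ∈ Submodule.span R (jK '' M)) ∧
        (∃ u ∈ Submodule.span R (jK '' M), IsUnit u) ∧
        ∀ N : Submodule R L, (∀ y ∈ N, ΦL y ∈ N) → (∃ u ∈ N, IsUnit u) →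
          Submodule.span R (jK '' M) ≤ N := by
  have hp := (Fact.out : p.Prime)
  have hft := ft_of_fg hB
  have hnB : IsNoetherianRing B := noeth (p := p)
  have hnR := hc.noeth
  obtain ⟨z, κ, hzB, hz, hκ, hκΦ, c, n, a, b, hc0, hd⟩ := exists_kappa hB hF hΦ h
  obtain ⟨κ', hκ', hκe⟩ := ext hc hκ
  have hd' := DB_ext hc hκ' hκe hd
  obtain ⟨κL, hκL, hκLe⟩ := frac_ext (L := L) hκ'
  have hzu : IsUnit (jK z) := hz.isUnit.map jK
  set w : L := jK z⁻¹ with hw
  have hzw : jK z * w = 1 := by rw [hw, ← map_mul, mul_inv_cancel₀ hz, map_one]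
  have hwz : w * jK z = 1 := by rw [mul_comm, hzw]
  -- `κL` on the image of `K`
  have hκK : ∀ x : K, κL (jK x) = jK (z * Φ (z⁻¹ * x)) := by
    intro x
    obtain ⟨u, hu, v, hv, hv0, huv⟩ := hF x
    have h1 : x = (v⁻¹) ^ p * (v ^ (p - 1) * u) := by
      have h2 : v ^ p = v ^ (p - 1) * v := by rw [← pow_succ, Nat.sub_add_cancel hp.one_le]
      rw [inv_pow, h2, ← huv]
      field_simp
    have h3 : v ^ (p - 1) * u ∈ B := B.mul_mem (B.pow_mem hv _) hu
    have h4 := hκΦ ⟨v ^ (p - 1) * u, h3⟩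
    have h5 : κL (jK (v ^ (p - 1) * u)) = jK (κ ⟨v ^ (p - 1) * u, h3⟩) := by
      have h6 := hj ⟨v ^ (p - 1) * u, h3⟩
      change jK (v ^ (p - 1) * u) = _ at h6
      rw [h6, hκLe, hκe, hj]
    rw [h1, map_mul, map_pow, hκL.pow_mul, h5, h4, ← map_mul]
    congr 1
    rw [mul_left_comm z⁻¹ (v⁻¹ ^ p), h.pow_mul]
    ring
  let ΦL : L → L := fun y => w * κL (jK z * y)
  have hΦL : ∀ y, ΦL y = w * κL (jK z * y) := fun _ => rfl
  have hPL : PL p ΦL := by
    refine ⟨fun x y => ?_, fun x y => ?_⟩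
    · rw [hΦL, hΦL, hΦL, mul_add, hκL.add, mul_add]
    · rw [hΦL, hΦL, mul_left_comm, hκL.pow_mul]
      ring
  refine ⟨ΦL, hPL, fun x => ?_, ?_, fun M hM => ?_⟩
  · rw [hΦL, ← map_mul, hκK, ← map_mul]
    congr 1
    rw [← mul_assoc, inv_mul_cancel₀ hz, one_mul, ← mul_assoc, inv_mul_cancel₀ hz, one_mul]
  · refine ⟨algebraMap R L (φ c), n, fun i => w * algebraMap R L (φ (a i)),
      fun i => jK z ^ p * algebraMap R L (φ (b i)), ?_, fun y => ?_⟩
    · exact IsLocalization.map_units L (⟨φ c, Comp.nzd hc hc0⟩ : nonZeroDivisors R)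
    · -- first for `κL`
      have h1 : ∀ y : L, algebraMap R L (φ c) * y =
          ∑ i, κL (algebraMap R L (φ (a i)) * y) ^ p * algebraMap R L (φ (b i)) := by
        intro y
        obtain ⟨x, s, rfl⟩ := IsLocalization.exists_mk'_eq (nonZeroDivisors R) y
        have hs : IsUnit (algebraMap R L (s : R)) := IsLocalization.map_units L s
        have h2 : algebraMap R L (s : R) ^ p * IsLocalization.mk' L x s =
            algebraMap R L ((s : R) ^ (p - 1) * x) := by
          have h3 : (s : R) ^ p = (s : R) ^ (p - 1) * s := by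
            rw [← pow_succ, Nat.sub_add_cancel hp.one_le]
          rw [← map_pow, h3, map_mul, map_mul, mul_assoc, IsLocalization.mk'_spec']
        have h4 := congrArg (algebraMap R L) (hd' ((s : R) ^ (p - 1) * x))
        rw [map_mul, ← h2, map_sum] at h4
        have h5 : ∀ i, algebraMap R L (κ' (φ (a i) * ((s : R) ^ (p - 1) * x)) ^ p * φ (b i)) =
            algebraMap R L (s : R) ^ p * (κL (algebraMap R L (φ (a i)) *
              IsLocalization.mk' L x s) ^ p * algebraMap R L (φ (b i))) := by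
          intro i
          rw [map_mul, map_pow, ← hκLe, map_mul, ← h2, mul_left_comm, hκL.pow_mul, mul_pow]
          ring
        rw [Finset.sum_congr rfl fun i _ => h5 i, ← Finset.mul_sum, mul_left_comm] at h4
        exact (hs.pow p).mul_left_cancel h4
      rw [h1 y]
      refine Finset.sum_congr rfl fun i _ => ?_
      rw [hΦL]
      have h2 : jK z * (w * algebraMap R L (φ (a i)) * y) = algebraMap R L (φ (a i)) * y := by
        rw [← mul_assoc, ← mul_assoc, hzw, one_mul]
      rw [h2, mul_pow]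
      have h3 : w ^ p * jK z ^ p = 1 := by rw [← mul_pow, hwz, one_pow]
      calc κL (algebraMap R L (φ (a i)) * y) ^ p * algebraMap R L (φ (b i))
          = w ^ p * jK z ^ p * (κL (algebraMap R L (φ (a i)) * y) ^ p *
            algebraMap R L (φ (b i))) := by rw [h3, one_mul]
        _ = w ^ p * κL (algebraMap R L (φ (a i)) * y) ^ p *
            (jK z ^ p * algebraMap R L (φ (b i))) := by ring
  · obtain ⟨h1, _, _⟩ := om_mn hB hF h hz hκ hκΦ hc0 hd
    have hMe := IsOm.eq hM h1
    have hNR : (mn κ (c ^ 3)).map φ = mn κ' (φ c ^ 3) := by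
      rw [mn_eq_map hc hκ' hκe, map_pow]
    -- `y` is in the span if and only if `jK z * y` is in the ideal
    have hsp : ∀ x ∈ mn κ' (φ c ^ 3), w * algebraMap R L x ∈ Submodule.span R (jK '' M) := by
      intro x hx
      rw [← hNR] at hx
      refine Submodule.span_induction (p := fun x _ =>
        w * algebraMap R L x ∈ Submodule.span R (jK '' M)) ?_ ?_ ?_ ?_ hx
      · rintro _ ⟨m, hm, rfl⟩
        refine Submodule.subset_span ⟨z⁻¹ * m, ?_, ?_⟩
        · rw [hMe]
          exact ⟨m, hm, rfl⟩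
        · rw [map_mul, hj]
      · rw [map_zero, mul_zero]
        exact Submodule.zero_mem _
      · intro x y _ _ hx hy
        rw [map_add, mul_add]
        exact Submodule.add_mem _ hx hy
      · intro r x _ hx
        have e : w * algebraMap R L (r • x) = r • (w * algebraMap R L x) := by
          rw [smul_eq_mul, map_mul, Algebra.smul_def]
          ring
        rw [e]
        exact Submodule.smul_mem _ _ hx
    have hsp' : ∀ y ∈ Submodule.span R (jK '' M), ∃ x ∈ mn κ' (φ c ^ 3),
        y = w * algebraMap R L x := by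
      intro y hy
      induction hy using Submodule.span_induction with
      | mem y hy =>
        obtain ⟨m, hm, rfl⟩ := hy
        rw [hMe] at hm
        obtain ⟨x, hx, rfl⟩ := hm
        refine ⟨φ x, ?_, ?_⟩
        · rw [← hNR]
          exact Ideal.mem_map_of_mem φ hx
        · rw [mz_apply, map_mul, hj]
      | zero => exact ⟨0, Submodule.zero_mem _, by rw [map_zero, mul_zero]⟩
      | add y y' _ _ hy hy' =>
        obtain ⟨x, hx, rfl⟩ := hy
        obtain ⟨x', hx', rfl⟩ := hy'
        exact ⟨x + x', Submodule.add_mem _ hx hx', by rw [map_add, mul_add]⟩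
      | smul r y _ hy =>
        obtain ⟨x, hx, rfl⟩ := hy
        refine ⟨r * x, Ideal.mul_mem_left _ _ hx, ?_⟩
        rw [Algebra.smul_def, map_mul]
        ring
    refine ⟨fun y hy => ?_, ⟨w * algebraMap R L (φ c ^ 3), hsp _ (mem_mn _), ?_⟩,
      fun N hN hu => ?_⟩
    · obtain ⟨x, hx, rfl⟩ := hsp' y hy
      rw [hΦL, ← mul_assoc, hzw, one_mul, hκLe]
      exact hsp _ (mn_st _ _ hx)
    · refine IsUnit.mul (IsUnit.of_mul_eq_one _ hwz) ?_
      have h2 : φ c ^ 3 ∈ nonZeroDivisors R := pow_mem (Comp.nzd hc hc0) 3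
      exact IsLocalization.map_units L (⟨φ c ^ 3, h2⟩ : nonZeroDivisors R)
    · obtain ⟨u, hu, huu⟩ := hu
      let I : Ideal R :=
        { carrier := {x | w * algebraMap R L x ∈ N}
          zero_mem' := by
            change w * algebraMap R L 0 ∈ N
            rw [map_zero, mul_zero]
            exact N.zero_mem
          add_mem' := by
            intro x y hx hy
            change w * algebraMap R L (x + y) ∈ N
            rw [map_add, mul_add]
            exact N.add_mem hx hy
          smul_mem' := by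
            intro r x hx
            have e : w * algebraMap R L (r • x) = r • (w * algebraMap R L x) := by
              rw [smul_eq_mul, map_mul, Algebra.smul_def]
              ring
            change w * algebraMap R L (r • x) ∈ N
            rw [e]
            exact N.smul_mem r hx }
      obtain ⟨x, s, rfl⟩ := IsLocalization.exists_mk'_eq (nonZeroDivisors R) u
      have hx : x ∈ nonZeroDivisors R := by
        rw [mem_nonZeroDivisors_iff_right]
        intro t ht
        have h2 : algebraMap R L t * IsLocalization.mk' L x s = 0 := by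
          have h3 : IsLocalization.mk' L x s * algebraMap R L (s : R) = algebraMap R L x :=
            IsLocalization.mk'_spec L x s
          have h4 : algebraMap R L t * IsLocalization.mk' L x s * algebraMap R L (s : R) = 0 := by
            rw [mul_assoc, h3, ← map_mul, ht, map_zero]
          exact (IsLocalization.map_units L s).mul_left_eq_zero.1 h4
        have h5 : algebraMap R L t = 0 := huu.mul_left_eq_zero.1 h2
        exact IsFractionRing.injective R L (by rw [h5, map_zero])
      have hzR : jK z = algebraMap R L (φ ⟨z, hzB⟩) := hj ⟨z, hzB⟩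
      have hznz : φ ⟨z, hzB⟩ ∈ nonZeroDivisors R :=
        Comp.nzd hc fun h0 => hz (congrArg Subtype.val h0)
      have hI : mn κ' (φ c ^ 3) ≤ I := by
        let _ : Algebra (ZMod p) R := (φ.comp (algebraMap (ZMod p) B)).toAlgebra
        refine mn_min hκ' hd' (f := φ ⟨z, hzB⟩ * x) ?_ ?_ (mul_mem hznz hx)
        · intro x hx
          have h2 := hN _ (show w * algebraMap R L x ∈ N from hx)
          rw [hΦL, ← mul_assoc, hzw, one_mul, hκLe] at h2
          exact h2
        · change w * algebraMap R L (φ ⟨z, hzB⟩ * x) ∈ N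
          rw [map_mul, ← hzR, ← mul_assoc, hwz, one_mul,
            ← IsLocalization.mk'_spec L x s, mul_comm, ← Algebra.smul_def]
          exact N.smul_mem _ hu
      intro y hy
      obtain ⟨x, hx, rfl⟩ := hsp' y hy
      exact hI hx

end field

section unit

variable {L : Type} [CommRing L]

/-- `p = 2`: two maps with dual bases (`C`, `C'` units) are conjugate by a unit -/
theorem exists_unit [Algebra (ZMod 2) L] {Φ Φ' : L → L} (h : PL 2 Φ) (h' : PL 2 Φ') {C C' : L}
    {n n' : ℕ} {a b : Fin n → L} {a' b' : Fin n' → L} (hC : IsUnit C) (hC' : IsUnit C')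
    (hd : DB 2 Φ C a b) (hd' : DB 2 Φ' C' a' b') :
    ∃ u : L, IsUnit u ∧ ∀ x, Φ' (u * x) = u * Φ x := by
  obtain ⟨g, g', hg, _, hgg⟩ := can h h' hd hd' hC.mem_nonZeroDivisors
  have hgu : IsUnit g := isUnit_of_mul_isUnit_left (by rw [hgg]; exact (hC.mul hC').pow 2)
  obtain ⟨D, hD⟩ := hC.exists_right_inv
  refine ⟨g * D ^ 2, hgu.mul ((IsUnit.of_mul_eq_one C (by rw [mul_comm]; exact hD)).pow 2),
    fun x => ?_⟩
  have h1 : C * Φ' (g * D ^ 2 * x) = g * D * Φ x := by
    rw [hg]
    have e : g * (g * D ^ 2 * x) = (g * D) ^ 2 * x := by ring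
    rw [e, h.pow_mul]
  have h2 : Φ' (g * D ^ 2 * x) = D * (C * Φ' (g * D ^ 2 * x)) := by
    rw [← mul_assoc, mul_comm D C, hD, one_mul]
  rw [h2, h1]
  ring

end unit

section two

/-- `p = 2`, the final statement over the total ring of fractions `L` of the common completion `R` of
`B` and `B'`. -/
theorem L_two {K K' : Type} [Field K] [Field K'] [Algebra (ZMod 2) K] [Algebra (ZMod 2) K']
    {B : Subalgebra (ZMod 2) K} {B' : Subalgebra (ZMod 2) K'} (hB : B.FG) (hF : Frc B)
    (hB' : B'.FG) (hF' : Frc B') {R L : Type} [CommRing R] [CommRing L] [Algebra R L]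
    [IsFractionRing R L] {φ : B →+* R} {φ' : B' →+* R} {J : Ideal B} {J' : Ideal B'}
    (hc : Comp φ J) (hc' : Comp φ' J') {Φ : K → K} {Φ' : K' → K'} (hΦ : LogTy 2 Φ)
    (hΦ' : LogTy 2 Φ') (h : IsPinv 2 Φ) (h' : IsPinv 2 Φ') :
    ∃ (jK : K →+* L) (jK' : K' →+* L) (ΦL ΦL' : L → L) (u : L),
      (∀ b : B, jK b = algebraMap R L (φ b)) ∧ (∀ b : B', jK' b = algebraMap R L (φ' b)) ∧
      PL 2 ΦL ∧ PL 2 ΦL' ∧ (∀ x, ΦL (jK x) = jK (Φ x)) ∧ (∀ x, ΦL' (jK' x) = jK' (Φ' x)) ∧
      IsUnit u ∧ (∀ x, ΦL' (u * x) = u * ΦL x) ∧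
      ∀ (M : Submodule B K) (M' : Submodule B' K'), IsOm B Φ M → IsOm B' Φ' M' →
        ∀ y, y ∈ Submodule.span R (jK '' M) ↔ u * y ∈ Submodule.span R (jK' '' M') := by
  let alg : Algebra (ZMod 2) L :=
    ((algebraMap R L).comp (φ.comp (algebraMap (ZMod 2) B))).toAlgebra
  obtain ⟨jK, hj⟩ := exists_jK (L := L) hF hc
  obtain ⟨jK', hj'⟩ := exists_jK (L := L) hF' hc'
  obtain ⟨ΦL, hL, hLe, ⟨C, n, a, b, hC, hd⟩, hM⟩ := exists_L hB hF hc hΦ h jK hj
  obtain ⟨ΦL', hL', hLe', ⟨C', n', a', b', hC', hd'⟩, hM'⟩ := exists_L hB' hF' hc' hΦ' h' jK' hj'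
  obtain ⟨u, hu, hue⟩ := exists_unit hL hL' hC hC' hd hd'
  refine ⟨jK, jK', ΦL, ΦL', u, hj, hj', hL, hL', hLe, hLe', hu, hue, fun M M' hO hO' => ?_⟩
  obtain ⟨m1, ⟨v, hv, hvu⟩, m3⟩ := hM M hO
  obtain ⟨m1', ⟨v', hv', hvu'⟩, m3'⟩ := hM' M' hO'
  obtain ⟨w, hw⟩ := hu.exists_right_inv
  have hwu : w * u = 1 := by rw [mul_comm]; exact hw
  have hm : ∀ (x y : L) (S : Submodule R L),
      y ∈ S.comap (LinearMap.mulLeft R x) ↔ x * y ∈ S := fun x y S => Iff.rfl
  have h1 : Submodule.span R (jK '' M) ≤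
      (Submodule.span R (jK' '' M')).comap (LinearMap.mulLeft R u) := by
    refine m3 _ (fun y hy => ?_) ⟨w * v', ?_, ?_⟩
    · rw [hm] at hy ⊢
      rw [← hue]
      exact m1' _ hy
    · rw [hm, ← mul_assoc, hw, one_mul]
      exact hv'
    · exact (IsUnit.of_mul_eq_one u hwu).mul hvu'
  have h2 : Submodule.span R (jK' '' M') ≤
      (Submodule.span R (jK '' M)).comap (LinearMap.mulLeft R w) := by
    refine m3' _ (fun y hy => ?_) ⟨u * v, ?_, hu.mul hvu⟩
    · rw [hm] at hy ⊢
      have e : w * ΦL' y = ΦL (w * y) := by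
        have e1 := hue (w * y)
        rw [← mul_assoc, hw, one_mul] at e1
        rw [e1, ← mul_assoc, hwu, one_mul]
      rw [e]
      exact m1 _ hy
    · rw [hm, ← mul_assoc, hwu, one_mul]
      exact hv
  refine fun y => ⟨fun hy => h1 hy, fun hy => ?_⟩
  have h3 : w * (u * y) ∈ Submodule.span R (jK '' M) := h2 hy
  rwa [← mul_assoc, hwu, one_mul] at h3

end two

end Pool.Agent.SuMin
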